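import Pool.Agent.Y425.Pack.Graph

/-!
The parity obstruction: `k` copies of the path with `2 n` vertices do not pack into `K_{2n-1,k}` if
`k < 2 n - 1` is odd.
-/

namespace Pool.Agent.Y425.Pack

open Finset Function

set_option linter.unusedSectionVars false

lemma pathGraph_isTree {m : ℕ} (hm : 1 ≤ m) : (SimpleGraph.pathGraph m).IsTree := by
  obtain ⟨m, rfl⟩ : ∃ m', m = m' + 1 := ⟨m - 1, by omega⟩
  rw [SimpleGraph.isTree_iff_connected_and_card]
  refine ⟨SimpleGraph.pathGraph_connected m, ?_⟩
  have h1 : Nat.card (SimpleGraph.pathGraph (m + 1)).edgeSet = m := by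
    have hadj : ∀ i : Fin m, (SimpleGraph.pathGraph (m + 1)).Adj i.castSucc i.succ := by
      intro i
      rw [SimpleGraph.pathGraph_adj]
      left
      simp
    let f : Fin m → (SimpleGraph.pathGraph (m + 1)).edgeSet := fun i =>
      ⟨s(i.castSucc, i.succ), hadj i⟩
    have hf : Bijective f := by
      constructor
      · intro i j hij
        have h2 := congrArg Subtype.val hij
        simp only [f, Sym2.eq, Sym2.rel_iff', Prod.mk.injEq, Prod.swap_prod_mk] at h2
        rcases h2 with ⟨h3, -⟩ | ⟨h3, h4⟩
        · exact Fin.castSucc_injective _ h3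
        · have h5 := congrArg Fin.val h3
          have h6 := congrArg Fin.val h4
          simp at h5 h6
          omega
      · rintro ⟨x, hx⟩
        revert hx
        refine Sym2.ind (fun u v huv => ?_) x
        have huv' := huv
        rw [SimpleGraph.mem_edgeSet, SimpleGraph.pathGraph_adj] at huv'
        rcases huv' with h | h
        · refine ⟨⟨u.val, by have := v.isLt; omega⟩, ?_⟩
          apply Subtype.ext
          simp only [f]
          congr 2
          exact Fin.ext (by simpa using h)
        · refine ⟨⟨v.val, by have := u.isLt; omega⟩, ?_⟩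
          apply Subtype.ext
          simp only [f]
          rw [Sym2.eq_swap]
          congr 2
          exact Fin.ext (by simpa using h)
    rw [← Nat.card_eq_of_bijective f hf, Nat.card_eq_fintype_card, Fintype.card_fin]
  rw [h1, Nat.card_eq_fintype_card, Fintype.card_fin]

lemma path_balanced {n : ℕ} (hn : 1 ≤ n) : IsBalancedTree n (SimpleGraph.pathGraph (2 * n)) := by
  refine ⟨pathGraph_isTree (by omega), {v | v.val % 2 = 0}, {v | v.val % 2 = 1}, ?_, ?_, ?_, ?_,
    ?_, ?_⟩
  · ext v
    simp only [Set.mem_union, Set.mem_ofPred_eq, Set.mem_univ, iff_true]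
    omega
  · rw [Set.disjoint_left]
    intro v h1 h2
    simp only [Set.mem_ofPred_eq] at h1 h2
    omega
  · have h1 : {v : Fin (2 * n) | v.val % 2 = 0} =
        Set.range (fun i : Fin n => (⟨2 * i.val, by omega⟩ : Fin (2 * n))) := by
      ext v
      simp only [Set.mem_ofPred_eq, Set.mem_range]
      constructor
      · intro h
        exact ⟨⟨v.val / 2, by omega⟩, Fin.ext (by simp; omega)⟩
      · rintro ⟨i, rfl⟩
        simp
    rw [h1, ← Set.image_univ, Function.Injective.encard_image, Set.encard_univ,
      ENat.card_eq_coe_fintype_card, Fintype.card_fin]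
    intro i j hij
    simp only [Fin.mk.injEq] at hij
    exact Fin.ext (by omega)
  · have h1 : {v : Fin (2 * n) | v.val % 2 = 1} =
        Set.range (fun i : Fin n => (⟨2 * i.val + 1, by omega⟩ : Fin (2 * n))) := by
      ext v
      simp only [Set.mem_ofPred_eq, Set.mem_range]
      constructor
      · intro h
        exact ⟨⟨v.val / 2, by omega⟩, Fin.ext (by simp; omega)⟩
      · rintro ⟨i, rfl⟩
        simp
    rw [h1, ← Set.image_univ, Function.Injective.encard_image, Set.encard_univ,
      ENat.card_eq_coe_fintype_card, Fintype.card_fin]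
    intro i j hij
    simp only [Fin.mk.injEq] at hij
    exact Fin.ext (by omega)
  · intro u hu v hv huv
    rw [SimpleGraph.pathGraph_adj] at huv
    simp only [Set.mem_ofPred_eq] at hu hv
    omega
  · intro u hu v hv huv
    rw [SimpleGraph.pathGraph_adj] at huv
    simp only [Set.mem_ofPred_eq] at hu hv
    omega

lemma adj_bip {X Y : Type} {u v : X ⊕ Y} (h : (completeBipartiteGraph X Y).Adj u v) :
    ∃ x y, s(u, v) = s(Sum.inl x, Sum.inr y) := by
  rcases u with u | u <;> rcases v with v | v
  · simp at h
  · exact ⟨u, v, rfl⟩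
  · exact ⟨v, u, Sym2.eq_swap⟩
  · simp at h

/-- The parity obstruction. -/
theorem not_P {n k : ℕ} (hn : 1 ≤ n) (hk : Odd k) (hk2 : k < 2 * n - 1) : ¬ P n k := by
  classical
  intro hP
  obtain ⟨φ, hinj, hadj, hdisj⟩ := hP (fun _ => Fin (2 * n))
    (fun _ => SimpleGraph.pathGraph (2 * n)) (fun _ => path_balanced hn)
  obtain ⟨m, hm⟩ : ∃ m, 2 * n - 1 = m := ⟨_, rfl⟩
  have h2n : 2 * n = m + 1 := by omega
  -- the vertices of the paths
  let v : Fin m → Fin (2 * n) := fun j => ⟨j.val, by omega⟩
  let v' : Fin m → Fin (2 * n) := fun j => ⟨j.val + 1, by omega⟩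
  have hvv' : ∀ j, (SimpleGraph.pathGraph (2 * n)).Adj (v j) (v' j) := fun j => by
    rw [SimpleGraph.pathGraph_adj]; left; rfl
  have hxy : ∀ i j, ∃ x y, s(φ i (v j), φ i (v' j)) = s(Sum.inl x, Sum.inr y) := fun i j =>
    adj_bip (hadj i _ _ (hvv' j))
  choose x y hxy using hxy
  have hinj2 : Injective (fun p : Fin k × Fin m => (x p.1 p.2, y p.1 p.2)) := by
    rintro ⟨i, j⟩ ⟨i', j'⟩ h
    simp only [Prod.mk.injEq] at h
    have h1 : s(φ i (v j), φ i (v' j)) = s(φ i' (v j'), φ i' (v' j')) := by
      rw [hxy, hxy, h.1, h.2]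
    by_cases hii : i = i'
    · subst hii
      have h2 : s(v j, v' j) = s(v j', v' j') := by
        apply Sym2.map.injective (hinj i)
        rw [Sym2.map_mk, Sym2.map_mk]
        exact h1
      simp only [Sym2.eq, Sym2.rel_iff', Prod.mk.injEq, Prod.swap_prod_mk, v, v', Fin.mk.injEq]
        at h2
      have : j = j' := Fin.ext (by omega)
      rw [this]
    · exfalso
      have h3 : s(φ i (v j), φ i (v' j)) ∈ Sym2.map (φ i) '' (SimpleGraph.pathGraph (2 * n)).edgeSet :=
        ⟨s(v j, v' j), hvv' j, by rw [Sym2.map_mk]⟩
      have h4 : s(φ i (v j), φ i (v' j)) ∈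
          Sym2.map (φ i') '' (SimpleGraph.pathGraph (2 * n)).edgeSet := by
        rw [h1]
        exact ⟨s(v j', v' j'), hvv' j', by rw [Sym2.map_mk]⟩
      exact Set.disjoint_left.1 (hdisj i i' hii) h3 h4
  have hbij : Bijective (fun p : Fin k × Fin m => (x p.1 p.2, y p.1 p.2)) := by
    rw [Fintype.bijective_iff_injective_and_card]
    refine ⟨hinj2, ?_⟩
    simp only [Fintype.card_prod, Fintype.card_fin]
    rw [← hm, mul_comm]
  -- every column contains an end vertex
  have hend : ∀ c : Fin (2 * n - 1), ∃ i, φ i ⟨0, by omega⟩ = Sum.inl c ∨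
      φ i ⟨2 * n - 1, by omega⟩ = Sum.inl c := by
    intro c
    by_contra hcon
    push Not at hcon
    have h1 : (univ.filter fun p : Fin k × Fin m => x p.1 p.2 = c).card = k := by
      have h2 : (univ.filter fun p : Fin k × Fin m => x p.1 p.2 = c).card =
          (univ.filter fun q : Fin (2 * n - 1) × Fin k => q.1 = c).card := by
        refine Finset.card_bij (fun p _ => (x p.1 p.2, y p.1 p.2)) ?_ ?_ ?_
        · intro p hp
          rw [Finset.mem_filter] at hp ⊢
          exact ⟨Finset.mem_univ _, hp.2⟩
        · intro p _ q _ h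
          exact hinj2 h
        · intro q hq
          obtain ⟨p, hp⟩ := hbij.2 q
          refine ⟨p, ?_, hp⟩
          rw [Finset.mem_filter] at hq ⊢
          refine ⟨Finset.mem_univ _, ?_⟩
          rw [← hq.2, ← hp]
      rw [h2]
      have h3 : (univ.filter fun q : Fin (2 * n - 1) × Fin k => q.1 = c) =
          {c} ×ˢ (univ : Finset (Fin k)) := by
        ext ⟨q1, q2⟩
        simp only [Finset.mem_filter, Finset.mem_univ, true_and, Finset.mem_product,
          Finset.mem_singleton, and_true]
      rw [h3, Finset.card_product]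
      simp
    have h4 : (univ.filter fun p : Fin k × Fin m => x p.1 p.2 = c).card =
        ∑ i, (univ.filter fun j : Fin m => x i j = c).card := by
      rw [Finset.card_filter, Fintype.sum_prod_type]
      refine Finset.sum_congr rfl fun i _ => ?_
      rw [Finset.card_filter]
    have hmemx : ∀ i j, x i j = c ↔ (φ i (v j) = Sum.inl c ∨ φ i (v' j) = Sum.inl c) := by
      intro i j
      have h5 := hxy i j
      simp only [Sym2.eq, Sym2.rel_iff', Prod.mk.injEq, Prod.swap_prod_mk] at h5
      rcases h5 with ⟨h5, h6⟩ | ⟨h5, h6⟩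
      · rw [h5, h6]; simp
      · rw [h5, h6]; simp
    have h7 : ∀ i, Even (univ.filter fun j : Fin m => x i j = c).card := by
      intro i
      by_cases hex : ∃ w, φ i w = Sum.inl c
      · obtain ⟨w, hw⟩ := hex
        have hw0 : w.val ≠ 0 := by
          intro h0
          apply (hcon i).1
          rw [← hw]
          congr 1
          exact Fin.ext h0.symm
        have hw1 : w.val ≠ 2 * n - 1 := by
          intro h0
          apply (hcon i).2
          rw [← hw]
          congr 1
          exact Fin.ext h0.symm
        have hwlt := w.isLt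
        have h8 : (univ.filter fun j : Fin m => x i j = c) =
            {⟨w.val - 1, by omega⟩, ⟨w.val, by omega⟩} := by
          ext j
          rw [Finset.mem_filter, hmemx, ← hw]
          simp only [Finset.mem_univ, true_and, Finset.mem_insert, Finset.mem_singleton]
          rw [(hinj i).eq_iff, (hinj i).eq_iff]
          simp only [v, v', Fin.ext_iff]
          omega
        rw [h8, Finset.card_pair]
        · exact ⟨1, rfl⟩
        · intro h9
          have := congrArg Fin.val h9
          simp at this
          omega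
      · push Not at hex
        have h8 : (univ.filter fun j : Fin m => x i j = c) = ∅ := by
          rw [Finset.filter_eq_empty_iff]
          intro j _
          rw [hmemx]
          push Not
          exact ⟨hex _, hex _⟩
        rw [h8]
        simp
    have h8 : Even (∑ i, (univ.filter fun j : Fin m => x i j = c).card) :=
      Finset.even_sum _ fun i _ => h7 i
    rw [← h4, h1] at h8
    exact (Nat.not_even_iff_odd.2 hk) h8
  -- the two ends of a path are on different sides
  have hside : ∀ i (j : ℕ) (hj : j < 2 * n), (φ i ⟨j, hj⟩).isLeft =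
      xor (φ i ⟨0, by omega⟩).isLeft (decide (j % 2 = 1)) := by
    intro i j
    induction j with
    | zero => intro hj; simp
    | succ j ih =>
      intro hj
      have h1 := ih (by omega)
      have h2 := hadj i ⟨j, by omega⟩ ⟨j + 1, hj⟩ (by
        rw [SimpleGraph.pathGraph_adj]; left; rfl)
      have h3 : (φ i ⟨j + 1, hj⟩).isLeft = !(φ i ⟨j, by omega⟩).isLeft := by
        obtain ⟨a, b, hab⟩ := adj_bip h2
        simp only [Sym2.eq, Sym2.rel_iff', Prod.mk.injEq, Prod.swap_prod_mk] at hab
        rcases hab with ⟨h5, h6⟩ | ⟨h5, h6⟩ <;> rw [h5, h6] <;> rfl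
      rw [h3, h1]
      rcases Nat.mod_two_eq_zero_or_one j with h4 | h4
      · have h5 : (j + 1) % 2 = 1 := by omega
        simp [h4, h5]
      · have h5 : (j + 1) % 2 = 0 := by omega
        simp [h4, h5]
  -- the map sending a path to its end in the first class
  have hsurj : ∃ g : Fin k → Fin (2 * n - 1), Surjective g := by
    have hne : Nonempty (Fin (2 * n - 1)) := ⟨⟨0, by omega⟩⟩
    let g : Fin k → Fin (2 * n - 1) := fun i =>
      ((φ i ⟨0, by omega⟩).getLeft?.or (φ i ⟨2 * n - 1, by omega⟩).getLeft?).getD
        ⟨0, by omega⟩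
    refine ⟨g, fun c => ?_⟩
    obtain ⟨i, hi⟩ := hend c
    refine ⟨i, ?_⟩
    rcases hi with hi | hi
    · simp [g, hi]
    · have h1 := hside i (2 * n - 1) (by omega)
      rw [hi] at h1
      have h2 : (2 * n - 1) % 2 = 1 := by omega
      have h3 : (φ i ⟨0, by omega⟩).isLeft = false := by
        simp only [Sum.isLeft_inl, h2, decide_true, Bool.xor_true] at h1
        simpa using h1.symm
      rcases hz : φ i ⟨0, by omega⟩ with z | z
      · rw [hz] at h3
        simp at h3
      · simp [g, hi, hz]
  obtain ⟨g, hg⟩ := hsurj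
  have := Fintype.card_le_of_surjective g hg
  rw [Fintype.card_fin, Fintype.card_fin] at this
  omega

end Pool.Agent.Y425.Pack
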