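import Pool.Agent.Y425.Pack.Small

/-!
The small cases `n = 2` and `n = 3`: explicit packings.
-/

namespace Pool.Agent.Y425.Pack

open Finset Function

/-- Checks a packing of the oriented standard patterns. -/
def okc {n k : ℕ} (R : Fin k → Fin n → Fin n → Bool) (α : Fin k → Fin n → Fin (2 * n - 1))
    (β : Fin k → Fin n → Fin k) : Bool :=
  ((List.finRange k).all fun i => (List.finRange n).all fun a => (List.finRange n).all fun b =>
    decide (a = b) || (!(decide (α i a = α i b)) && !(decide (β i a = β i b)))) &&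
  ((List.finRange k).all fun i => (List.finRange k).all fun j => decide (i = j) ||
    ((List.finRange n).all fun a => (List.finRange n).all fun a' =>
      !(decide (α i a = α j a')) || ((List.finRange n).all fun b => (List.finRange n).all fun b' =>
        !(R i a b && R j a' b') || !(decide (β i b = β j b')))))

lemma okc_spec {n k : ℕ} {R : Fin k → Fin n → Fin n → Bool} {α : Fin k → Fin n → Fin (2 * n - 1)}
    {β : Fin k → Fin n → Fin k} (h : okc R α β = true) : Pk (Fin (2 * n - 1)) R (Fin k) := by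
  simp only [okc, Bool.and_eq_true, List.all_eq_true, List.mem_finRange, forall_const,
    Bool.or_eq_true, decide_eq_true_eq, Bool.not_eq_true', decide_eq_false_iff_not] at h
  obtain ⟨h1, h2⟩ := h
  refine ⟨α, β, fun i a b hab => ?_, fun i a b hab => ?_, fun i j hij a b a' b' h3 h4 h5 h6 => ?_⟩
  · rcases h1 i a b with h | h
    · exact h
    · exact absurd hab h.1
  · rcases h1 i a b with h | h
    · exact h
    · exact absurd hab h.2
  · rcases h2 i j with h | h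
    · exact hij h
    · rcases h a a' with h | h
      · exact h h5
      · rcases h b b' with h | h
        · rw [h3, h4] at h
          exact absurd h (by simp)
        · exact h h6

/-- The oriented standard pattern. -/
def orient {n L k : ℕ} (Std : Fin L → Fin n → Fin n → Bool) (t : Fin k → Fin L)
    (o : Fin k → Bool) : Fin k → Fin n → Fin n → Bool :=
  fun i a b => if o i = true then Std (t i) b a else Std (t i) a b

lemma QM_cert {n L k : ℕ} {Std : Fin L → Fin n → Fin n → Bool} (t : Fin k → Fin L)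
    (o : Fin k → Bool) (α : Fin k → Fin n → Fin (2 * n - 1)) (β : Fin k → Fin n → Fin k)
    (h : okc (orient Std t o) α β = true) (m : Fin L → ℕ)
    (hm : ∀ c, (univ.filter fun i => t i = c).card = m c) : QM Std m := by
  refine QM_of_cert t (orient Std t o) (fun i => ?_) (okc_spec h) m hm
  by_cases ho : o i = true
  · right
    funext a b
    simp [orient, ho, flipR]
  · left
    funext a b
    simp [orient, ho]

/-! ### The case `n = 2` -/

lemma q2_2 : QM Std2 ![2] :=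
  QM_cert (n := 2) (k := 2) ![0, 0] ![false, false] ![![0, 1], ![2, 1]] ![![0, 1], ![1, 0]]
    (by decide) _ (by decide)

lemma q2_3 : QM Std2 ![3] :=
  QM_cert (n := 2) (k := 3) ![0, 0, 0] ![false, false, false] ![![0, 1], ![1, 2], ![2, 0]]
    ![![0, 1], ![1, 2], ![2, 0]] (by decide) _ (by decide)

lemma q2_all : ∀ k, 2 ≤ k → QM Std2 ![k] := by
  intro k
  induction k using Nat.strong_induction_on with
  | _ k ih =>
    intro hk
    rcases Nat.lt_or_ge k 4 with h | h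
    · interval_cases k
      · exact q2_2
      · exact q2_3
    · have h1 := (ih (k - 2) (by omega) (by omega)).add q2_2
      have h2 : (![k - 2] : Fin 1 → ℕ) + ![2] = ![k] := by
        funext c
        fin_cases c
        simp
        omega
      rwa [h2] at h1

theorem P_two {k : ℕ} (hk : 2 ≤ k) : P 2 k := by
  refine P_of_QM Std2 k exists_std2 fun m hm => ?_
  have h1 : m = ![k] := by
    funext c
    fin_cases c
    simpa using hm
  rw [h1]
  exact q2_all k hk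

/-! ### The case `n = 3` -/

/-- The three trees with three vertices in each class: the path, the spider and the double star. -/
def Std3 : Fin 3 → Fin 3 → Fin 3 → Bool :=
  ![![![true, false, false], ![true, true, false], ![false, true, true]],
    ![![true, true, true], ![true, false, false], ![false, true, false]],
    ![![true, true, true], ![true, false, false], ![true, false, false]]]

/-- The six permutations of `Fin 3`. -/
def perms3 : List (Fin 3 → Fin 3) :=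
  [![0, 1, 2], ![0, 2, 1], ![1, 0, 2], ![1, 2, 0], ![2, 0, 1], ![2, 1, 0]]

lemma perms3_inj : ∀ π ∈ perms3, Injective π := by decide

/-- Five edges, no isolated vertex, no cycle of length four. -/
def good3 (R : Fin 3 → Fin 3 → Bool) : Bool :=
  ((R 0 0).toNat + (R 0 1).toNat + (R 0 2).toNat + ((R 1 0).toNat + (R 1 1).toNat + (R 1 2).toNat) +
    ((R 2 0).toNat + (R 2 1).toNat + (R 2 2).toNat) == 5) &&
  ((List.finRange 3).all fun a => (List.finRange 3).any fun b => R a b) &&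
  ((List.finRange 3).all fun b => (List.finRange 3).any fun a => R a b) &&
  ((List.finRange 3).all fun a => (List.finRange 3).all fun a' => (List.finRange 3).all fun b =>
    (List.finRange 3).all fun b' => decide (a = a') || decide (b = b') ||
      !(R a b && R a b' && R a' b && R a' b'))

/-- `R` is one of the standard patterns up to relabelling and orientation. -/
def std3? (R : Fin 3 → Fin 3 → Bool) : Bool :=
  (List.finRange 3).any fun c => perms3.any fun π => perms3.any fun ρ =>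
    fit R (Std3 c) π ρ || fit (flipR R) (Std3 c) π ρ

lemma class3 : ∀ r0 r1 r2 r3 r4 r5 r6 r7 r8 : Bool,
    (!(good3 ![![r0, r1, r2], ![r3, r4, r5], ![r6, r7, r8]]) ||
      std3? ![![r0, r1, r2], ![r3, r4, r5], ![r6, r7, r8]]) = true := by
  decide +kernel

lemma eta3 (R : Fin 3 → Fin 3 → Bool) :
    R = ![![R 0 0, R 0 1, R 0 2], ![R 1 0, R 1 1, R 1 2], ![R 2 0, R 2 1, R 2 2]] := by
  funext a b
  fin_cases a <;> fin_cases b <;> rfl

lemma exists_std3 (V : Type) (G : SimpleGraph V) (hG : IsBalancedTree 3 G) :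
    ∃ c l, Labels G (Std3 c) l := by
  obtain ⟨R, l, hR, hl, hC⟩ := exists_labels (by norm_num : 1 ≤ 3) G hG
  have hgood : good3 R = true := by
    simp only [good3, Bool.and_eq_true, beq_iff_eq]
    refine ⟨⟨⟨?_, ?_⟩, ?_⟩, ?_⟩
    · have h1 := hR.card
      rw [Finset.card_filter, Fintype.sum_prod_type] at h1
      simp only [Fin.sum_univ_three] at h1
      have h2 : ∀ x : Bool, (if x = true then 1 else 0) = x.toNat := by decide
      simp only [h2] at h1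
      exact h1
    · rw [List.all_eq_true]
      intro a _
      rw [List.any_eq_true]
      obtain ⟨b, hb⟩ := hR.left a
      exact ⟨b, List.mem_finRange b, hb⟩
    · rw [List.all_eq_true]
      intro b _
      rw [List.any_eq_true]
      obtain ⟨a, ha⟩ := hR.right b
      exact ⟨a, List.mem_finRange a, ha⟩
    · simp only [List.all_eq_true, List.mem_finRange, forall_const]
      intro a a' b b'
      by_cases ha : a = a'
      · simp [ha]
      by_cases hb : b = b'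
      · simp [hb]
      have := hC a a' b b' ha hb
      simp only [ha, hb, decide_false, Bool.false_or, Bool.not_eq_true']
      rw [Bool.eq_false_iff]
      intro h
      simp only [Bool.and_eq_true] at h
      exact this ⟨h.1.1.1, h.1.1.2, h.1.2, h.2⟩
  have hs := class3 (R 0 0) (R 0 1) (R 0 2) (R 1 0) (R 1 1) (R 1 2) (R 2 0) (R 2 1) (R 2 2)
  rw [← eta3 R, hgood] at hs
  simp only [Bool.not_true, Bool.false_or] at hs
  rw [std3?, List.any_eq_true] at hs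
  obtain ⟨c, -, hs⟩ := hs
  rw [List.any_eq_true] at hs
  obtain ⟨π, hπ, hs⟩ := hs
  rw [List.any_eq_true] at hs
  obtain ⟨ρ, hρ, hs⟩ := hs
  rw [Bool.or_eq_true] at hs
  rcases hs with hs | hs
  · exact ⟨c, _, hl.map π ρ (perms3_inj π hπ) (perms3_inj ρ hρ) (fit_spec hs)⟩
  · exact ⟨c, _, hl.flip.map π ρ (perms3_inj π hπ) (perms3_inj ρ hρ) (fit_spec hs)⟩


lemma q3_0_0_3 : QM Std3 ![0, 0, 3] :=
  QM_cert (n := 3) (k := 3) ![2, 2, 2] ![false, false, false]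
    ![![3, 0, 4], ![1, 0, 4], ![2, 0, 4]]
    ![![0, 1, 2], ![1, 0, 2], ![2, 0, 1]]
    (by decide +kernel) _ (by decide)

lemma q3_0_1_2 : QM Std3 ![0, 1, 2] :=
  QM_cert (n := 3) (k := 3) ![1, 2, 2] ![true, false, false]
    ![![3, 4, 0], ![1, 0, 3], ![2, 0, 4]]
    ![![0, 2, 1], ![1, 0, 2], ![2, 0, 1]]
    (by decide +kernel) _ (by decide)

lemma q3_0_2_1 : QM Std3 ![0, 2, 1] :=
  QM_cert (n := 3) (k := 3) ![1, 1, 2] ![true, true, false]
    ![![3, 4, 0], ![0, 1, 4], ![2, 1, 3]]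
    ![![0, 2, 1], ![2, 1, 0], ![1, 0, 2]]
    (by decide +kernel) _ (by decide)

lemma q3_0_3_0 : QM Std3 ![0, 3, 0] :=
  QM_cert (n := 3) (k := 3) ![1, 1, 1] ![true, false, false]
    ![![3, 4, 0], ![1, 0, 4], ![2, 0, 3]]
    ![![0, 2, 1], ![1, 2, 0], ![2, 1, 0]]
    (by decide +kernel) _ (by decide)

lemma q3_1_1_1 : QM Std3 ![1, 1, 1] :=
  QM_cert (n := 3) (k := 3) ![0, 1, 2] ![false, false, false]
    ![![4, 3, 0], ![1, 0, 4], ![2, 3, 4]]
    ![![2, 1, 0], ![2, 1, 0], ![0, 1, 2]]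
    (by decide +kernel) _ (by decide)

lemma q3_1_2_0 : QM Std3 ![1, 2, 0] :=
  QM_cert (n := 3) (k := 3) ![0, 1, 1] ![false, false, true]
    ![![4, 3, 0], ![1, 0, 2], ![2, 4, 3]]
    ![![2, 1, 0], ![2, 1, 0], ![0, 2, 1]]
    (by decide +kernel) _ (by decide)

lemma q3_2_0_1 : QM Std3 ![2, 0, 1] :=
  QM_cert (n := 3) (k := 3) ![0, 2, 0] ![false, false, false]
    ![![4, 3, 0], ![2, 1, 3], ![0, 1, 4]]
    ![![2, 1, 0], ![0, 1, 2], ![2, 1, 0]]
    (by decide +kernel) _ (by decide)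

lemma q3_2_1_0 : QM Std3 ![2, 1, 0] :=
  QM_cert (n := 3) (k := 3) ![0, 0, 1] ![false, false, false]
    ![![4, 3, 0], ![0, 1, 4], ![2, 1, 3]]
    ![![2, 1, 0], ![2, 0, 1], ![1, 0, 2]]
    (by decide +kernel) _ (by decide)

lemma q3_0_0_4 : QM Std3 ![0, 0, 4] :=
  QM_cert (n := 3) (k := 4) ![2, 2, 2, 2] ![false, false, false, false]
    ![![4, 0, 3], ![1, 2, 3], ![2, 1, 3], ![0, 3, 4]]
    ![![0, 1, 3], ![1, 0, 2], ![3, 0, 2], ![2, 1, 3]]
    (by decide +kernel) _ (by decide)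

lemma q3_0_1_3 : QM Std3 ![0, 1, 3] :=
  QM_cert (n := 3) (k := 4) ![1, 2, 2, 2] ![false, false, false, false]
    ![![3, 0, 2], ![1, 2, 4], ![0, 1, 2], ![4, 2, 3]]
    ![![0, 1, 2], ![0, 1, 3], ![2, 1, 3], ![3, 1, 2]]
    (by decide +kernel) _ (by decide)

lemma q3_0_2_2 : QM Std3 ![0, 2, 2] :=
  QM_cert (n := 3) (k := 4) ![1, 1, 2, 2] ![false, false, false, false]
    ![![3, 0, 2], ![4, 0, 1], ![2, 0, 3], ![1, 0, 4]]
    ![![0, 1, 2], ![2, 0, 3], ![3, 0, 2], ![1, 2, 3]]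
    (by decide +kernel) _ (by decide)

lemma q3_0_3_1 : QM Std3 ![0, 3, 1] :=
  QM_cert (n := 3) (k := 4) ![1, 1, 2, 1] ![false, false, false, true]
    ![![3, 0, 2], ![1, 3, 4], ![2, 0, 4], ![0, 4, 1]]
    ![![0, 1, 2], ![3, 2, 0], ![3, 0, 2], ![1, 2, 0]]
    (by decide +kernel) _ (by decide)

lemma q3_0_4_0 : QM Std3 ![0, 4, 0] :=
  QM_cert (n := 3) (k := 4) ![1, 1, 1, 1] ![false, false, true, false]
    ![![3, 0, 2], ![4, 1, 2], ![0, 2, 3], ![1, 0, 4]]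
    ![![0, 1, 2], ![0, 2, 1], ![3, 1, 0], ![2, 3, 1]]
    (by decide +kernel) _ (by decide)

lemma q3_1_0_3 : QM Std3 ![1, 0, 3] :=
  QM_cert (n := 3) (k := 4) ![0, 2, 2, 2] ![false, false, false, false]
    ![![2, 0, 1], ![2, 0, 4], ![3, 0, 1], ![4, 1, 3]]
    ![![1, 0, 2], ![2, 0, 3], ![3, 0, 2], ![1, 0, 3]]
    (by decide +kernel) _ (by decide)

lemma q3_1_1_2 : QM Std3 ![1, 1, 2] :=
  QM_cert (n := 3) (k := 4) ![0, 1, 2, 2] ![false, false, false, false]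
    ![![2, 0, 1], ![2, 0, 1], ![3, 0, 4], ![4, 1, 3]]
    ![![1, 0, 2], ![2, 3, 0], ![3, 0, 2], ![1, 0, 2]]
    (by decide +kernel) _ (by decide)

lemma q3_1_2_1 : QM Std3 ![1, 2, 1] :=
  QM_cert (n := 3) (k := 4) ![0, 1, 1, 2] ![false, true, true, false]
    ![![2, 0, 1], ![2, 3, 0], ![1, 3, 4], ![4, 0, 2]]
    ![![1, 0, 2], ![2, 0, 3], ![1, 3, 0], ![3, 0, 2]]
    (by decide +kernel) _ (by decide)

lemma q3_1_3_0 : QM Std3 ![1, 3, 0] :=
  QM_cert (n := 3) (k := 4) ![0, 1, 1, 1] ![false, true, true, true]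
    ![![2, 0, 1], ![3, 4, 2], ![1, 3, 2], ![0, 4, 2]]
    ![![1, 0, 2], ![0, 1, 3], ![3, 1, 2], ![2, 3, 1]]
    (by decide +kernel) _ (by decide)

lemma q3_2_0_2 : QM Std3 ![2, 0, 2] :=
  QM_cert (n := 3) (k := 4) ![0, 0, 2, 2] ![false, false, false, false]
    ![![2, 0, 1], ![4, 2, 0], ![3, 1, 2], ![4, 1, 3]]
    ![![1, 0, 2], ![0, 2, 3], ![3, 0, 2], ![1, 2, 3]]
    (by decide +kernel) _ (by decide)

lemma q3_2_1_1 : QM Std3 ![2, 1, 1] :=
  QM_cert (n := 3) (k := 4) ![0, 0, 1, 2] ![false, false, false, false]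
    ![![2, 0, 1], ![4, 0, 2], ![3, 1, 2], ![4, 1, 3]]
    ![![1, 0, 2], ![2, 3, 0], ![1, 2, 0], ![3, 0, 1]]
    (by decide +kernel) _ (by decide)

lemma q3_2_2_0 : QM Std3 ![2, 2, 0] :=
  QM_cert (n := 3) (k := 4) ![0, 0, 1, 1] ![false, false, true, true]
    ![![2, 0, 1], ![1, 4, 2], ![0, 3, 2], ![3, 4, 1]]
    ![![1, 0, 2], ![1, 0, 3], ![2, 3, 0], ![3, 1, 2]]
    (by decide +kernel) _ (by decide)

lemma q3_3_0_1 : QM Std3 ![3, 0, 1] :=
  QM_cert (n := 3) (k := 4) ![0, 0, 0, 2] ![false, false, false, false]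
    ![![2, 0, 1], ![1, 4, 2], ![3, 4, 0], ![3, 1, 2]]
    ![![1, 0, 2], ![1, 2, 0], ![0, 3, 2], ![3, 1, 2]]
    (by decide +kernel) _ (by decide)

lemma q3_3_1_0 : QM Std3 ![3, 1, 0] :=
  QM_cert (n := 3) (k := 4) ![0, 0, 0, 1] ![false, false, false, true]
    ![![2, 0, 1], ![1, 4, 2], ![1, 0, 3], ![3, 4, 2]]
    ![![1, 0, 2], ![1, 2, 0], ![3, 2, 0], ![3, 1, 0]]
    (by decide +kernel) _ (by decide)

lemma q3_4_0_0 : QM Std3 ![4, 0, 0] :=
  QM_cert (n := 3) (k := 4) ![0, 0, 0, 0] ![false, false, false, false]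
    ![![2, 0, 1], ![1, 4, 2], ![1, 0, 3], ![2, 4, 3]]
    ![![1, 0, 2], ![1, 0, 3], ![3, 2, 0], ![2, 3, 1]]
    (by decide +kernel) _ (by decide)

lemma q3_0_0_5 : QM Std3 ![0, 0, 5] :=
  QM_cert (n := 3) (k := 5) ![2, 2, 2, 2, 2] ![false, false, false, false, false]
    ![![2, 0, 3], ![1, 0, 3], ![4, 1, 2], ![0, 2, 4], ![3, 1, 4]]
    ![![0, 3, 4], ![4, 0, 1], ![2, 0, 4], ![1, 2, 3], ![3, 1, 2]]
    (by decide +kernel) _ (by decide)

lemma q3_0_1_4 : QM Std3 ![0, 1, 4] :=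
  QM_cert (n := 3) (k := 5) ![1, 2, 2, 2, 2] ![true, false, false, false, false]
    ![![0, 1, 4], ![2, 3, 4], ![3, 2, 4], ![0, 3, 4], ![1, 2, 4]]
    ![![0, 2, 3], ![1, 0, 4], ![3, 0, 2], ![4, 1, 3], ![2, 1, 4]]
    (by decide +kernel) _ (by decide)

lemma q3_0_2_3 : QM Std3 ![0, 2, 3] :=
  QM_cert (n := 3) (k := 5) ![1, 1, 2, 2, 2] ![true, false, false, false, false]
    ![![0, 1, 4], ![2, 1, 3], ![0, 2, 3], ![4, 1, 2], ![3, 1, 4]]
    ![![0, 2, 3], ![4, 0, 2], ![3, 1, 4], ![1, 3, 4], ![2, 1, 4]]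
    (by decide +kernel) _ (by decide)

lemma q3_0_3_2 : QM Std3 ![0, 3, 2] :=
  QM_cert (n := 3) (k := 5) ![1, 1, 1, 2, 2] ![true, false, false, false, false]
    ![![0, 1, 4], ![2, 1, 3], ![0, 1, 2], ![4, 2, 3], ![3, 1, 4]]
    ![![0, 2, 3], ![4, 0, 2], ![1, 3, 4], ![1, 3, 4], ![2, 3, 4]]
    (by decide +kernel) _ (by decide)

lemma q3_0_4_1 : QM Std3 ![0, 4, 1] :=
  QM_cert (n := 3) (k := 5) ![1, 1, 1, 1, 2] ![true, false, true, false, false]
    ![![0, 1, 4], ![2, 1, 3], ![0, 1, 4], ![3, 0, 2], ![4, 2, 3]]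
    ![![0, 2, 3], ![4, 0, 2], ![1, 3, 2], ![4, 1, 2], ![3, 2, 4]]
    (by decide +kernel) _ (by decide)

lemma q3_0_5_0 : QM Std3 ![0, 5, 0] :=
  QM_cert (n := 3) (k := 5) ![1, 1, 1, 1, 1] ![true, false, true, false, false]
    ![![0, 1, 4], ![2, 1, 3], ![0, 1, 4], ![3, 0, 2], ![4, 2, 3]]
    ![![0, 2, 3], ![4, 0, 2], ![1, 3, 2], ![4, 1, 3], ![3, 2, 4]]
    (by decide +kernel) _ (by decide)

lemma q3_1_0_4 : QM Std3 ![1, 0, 4] :=
  QM_cert (n := 3) (k := 5) ![0, 2, 2, 2, 2] ![false, false, false, false, false]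
    ![![2, 4, 0], ![1, 3, 4], ![3, 2, 4], ![0, 1, 4], ![2, 1, 3]]
    ![![1, 3, 0], ![4, 0, 1], ![0, 1, 2], ![2, 1, 4], ![3, 2, 4]]
    (by decide +kernel) _ (by decide)

lemma q3_1_1_3 : QM Std3 ![1, 1, 3] :=
  QM_cert (n := 3) (k := 5) ![0, 1, 2, 2, 2] ![false, false, false, false, false]
    ![![2, 4, 0], ![3, 1, 2], ![2, 0, 3], ![4, 0, 1], ![1, 0, 3]]
    ![![1, 3, 0], ![0, 3, 2], ![4, 0, 2], ![2, 0, 4], ![1, 3, 4]]
    (by decide +kernel) _ (by decide)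

lemma q3_1_2_2 : QM Std3 ![1, 2, 2] :=
  QM_cert (n := 3) (k := 5) ![0, 1, 1, 2, 2] ![false, false, false, false, false]
    ![![2, 4, 0], ![3, 1, 2], ![2, 0, 1], ![4, 0, 3], ![1, 0, 3]]
    ![![1, 3, 0], ![0, 3, 2], ![2, 4, 0], ![4, 0, 2], ![1, 2, 3]]
    (by decide +kernel) _ (by decide)

lemma q3_1_3_1 : QM Std3 ![1, 3, 1] :=
  QM_cert (n := 3) (k := 5) ![0, 1, 1, 2, 1] ![false, false, false, false, true]
    ![![2, 4, 0], ![3, 1, 2], ![2, 1, 3], ![4, 0, 1], ![0, 1, 3]]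
    ![![1, 3, 0], ![0, 3, 2], ![2, 4, 0], ![4, 0, 2], ![1, 2, 3]]
    (by decide +kernel) _ (by decide)

lemma q3_1_4_0 : QM Std3 ![1, 4, 0] :=
  QM_cert (n := 3) (k := 5) ![0, 1, 1, 1, 1] ![false, false, true, true, true]
    ![![2, 4, 0], ![3, 1, 2], ![0, 2, 4], ![1, 4, 2], ![1, 3, 0]]
    ![![1, 3, 0], ![0, 3, 2], ![2, 4, 0], ![4, 2, 0], ![1, 3, 4]]
    (by decide +kernel) _ (by decide)

lemma q3_2_0_3 : QM Std3 ![2, 0, 3] :=
  QM_cert (n := 3) (k := 5) ![0, 0, 2, 2, 2] ![false, false, false, false, false]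
    ![![2, 4, 0], ![1, 4, 3], ![2, 0, 4], ![3, 0, 1], ![1, 0, 2]]
    ![![1, 3, 0], ![0, 2, 4], ![4, 0, 3], ![1, 0, 3], ![2, 3, 4]]
    (by decide +kernel) _ (by decide)

lemma q3_2_1_2 : QM Std3 ![2, 1, 2] :=
  QM_cert (n := 3) (k := 5) ![0, 0, 1, 2, 2] ![false, false, true, false, false]
    ![![2, 4, 0], ![1, 4, 3], ![0, 2, 4], ![3, 1, 2], ![1, 0, 2]]
    ![![1, 3, 0], ![0, 2, 4], ![4, 1, 0], ![3, 0, 1], ![2, 1, 4]]
    (by decide +kernel) _ (by decide)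

lemma q3_2_2_1 : QM Std3 ![2, 2, 1] :=
  QM_cert (n := 3) (k := 5) ![0, 0, 1, 1, 2] ![false, false, false, true, false]
    ![![2, 4, 0], ![1, 4, 3], ![2, 3, 4], ![0, 3, 1], ![1, 0, 2]]
    ![![1, 3, 0], ![0, 2, 4], ![0, 4, 3], ![1, 4, 3], ![2, 3, 4]]
    (by decide +kernel) _ (by decide)

lemma q3_2_3_0 : QM Std3 ![2, 3, 0] :=
  QM_cert (n := 3) (k := 5) ![0, 0, 1, 1, 1] ![false, false, false, true, false]
    ![![2, 4, 0], ![1, 4, 3], ![2, 3, 4], ![0, 3, 1], ![1, 0, 2]]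
    ![![1, 3, 0], ![0, 2, 4], ![0, 4, 3], ![1, 2, 3], ![4, 2, 3]]
    (by decide +kernel) _ (by decide)

lemma q3_3_0_2 : QM Std3 ![3, 0, 2] :=
  QM_cert (n := 3) (k := 5) ![0, 0, 0, 2, 2] ![false, false, false, false, false]
    ![![2, 4, 0], ![1, 4, 3], ![2, 3, 1], ![0, 1, 3], ![2, 1, 4]]
    ![![1, 3, 0], ![0, 2, 4], ![0, 3, 2], ![1, 2, 4], ![4, 2, 3]]
    (by decide +kernel) _ (by decide)

lemma q3_3_1_1 : QM Std3 ![3, 1, 1] :=
  QM_cert (n := 3) (k := 5) ![0, 0, 0, 1, 2] ![false, false, false, true, false]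
    ![![2, 4, 0], ![1, 4, 3], ![3, 0, 2], ![2, 3, 1], ![1, 0, 4]]
    ![![1, 3, 0], ![0, 2, 4], ![1, 2, 0], ![3, 4, 0], ![4, 1, 2]]
    (by decide +kernel) _ (by decide)

lemma q3_3_2_0 : QM Std3 ![3, 2, 0] :=
  QM_cert (n := 3) (k := 5) ![0, 0, 0, 1, 1] ![false, false, false, false, true]
    ![![2, 4, 0], ![1, 4, 3], ![2, 3, 1], ![0, 2, 3], ![1, 2, 4]]
    ![![1, 3, 0], ![0, 2, 4], ![0, 3, 2], ![2, 1, 4], ![4, 1, 3]]
    (by decide +kernel) _ (by decide)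

lemma q3_4_0_1 : QM Std3 ![4, 0, 1] :=
  QM_cert (n := 3) (k := 5) ![0, 0, 0, 2, 0] ![false, false, false, false, false]
    ![![2, 4, 0], ![1, 4, 3], ![1, 0, 2], ![3, 0, 1], ![4, 1, 2]]
    ![![1, 3, 0], ![0, 2, 4], ![2, 4, 0], ![1, 0, 3], ![4, 3, 2]]
    (by decide +kernel) _ (by decide)

lemma q3_4_1_0 : QM Std3 ![4, 1, 0] :=
  QM_cert (n := 3) (k := 5) ![0, 0, 0, 1, 0] ![false, false, false, false, false]
    ![![2, 4, 0], ![1, 4, 3], ![2, 3, 1], ![0, 2, 4], ![3, 1, 2]]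
    ![![1, 3, 0], ![0, 2, 4], ![0, 3, 2], ![2, 4, 1], ![1, 4, 3]]
    (by decide +kernel) _ (by decide)

lemma q3_5_0_0 : QM Std3 ![5, 0, 0] :=
  QM_cert (n := 3) (k := 5) ![0, 0, 0, 0, 0] ![false, false, false, false, false]
    ![![2, 4, 0], ![1, 4, 3], ![3, 2, 0], ![0, 1, 2], ![4, 1, 3]]
    ![![1, 3, 0], ![0, 2, 4], ![0, 4, 2], ![1, 2, 3], ![4, 3, 1]]
    (by decide +kernel) _ (by decide)

lemma q3_1_0_5 : QM Std3 ![1, 0, 5] :=
  QM_cert (n := 3) (k := 6) ![0, 2, 2, 2, 2, 2] ![false, false, false, false, false, false]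
    ![![2, 0, 1], ![1, 3, 4], ![2, 3, 4], ![0, 2, 3], ![4, 0, 1], ![3, 2, 4]]
    ![![0, 1, 5], ![0, 2, 4], ![1, 3, 4], ![2, 4, 5], ![3, 2, 4], ![5, 3, 4]]
    (by decide +kernel) _ (by decide)

lemma q3_3_0_3 : QM Std3 ![3, 0, 3] :=
  QM_cert (n := 3) (k := 6) ![0, 0, 0, 2, 2, 2] ![false, false, false, false, false, false]
    ![![2, 0, 1], ![1, 3, 2], ![3, 2, 4], ![4, 2, 3], ![1, 0, 3], ![0, 3, 4]]
    ![![0, 1, 5], ![0, 4, 5], ![3, 2, 0], ![1, 3, 4], ![2, 3, 4], ![5, 3, 4]]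
    (by decide +kernel) _ (by decide)

lemma q3_5_0_1 : QM Std3 ![5, 0, 1] :=
  QM_cert (n := 3) (k := 6) ![0, 0, 0, 0, 0, 2] ![false, false, false, false, false, false]
    ![![2, 0, 1], ![1, 3, 2], ![3, 2, 4], ![2, 3, 4], ![0, 1, 4], ![0, 1, 3]]
    ![![0, 1, 5], ![0, 4, 5], ![3, 2, 0], ![1, 5, 4], ![4, 3, 1], ![2, 3, 5]]
    (by decide +kernel) _ (by decide)

lemma q3_5_1_0 : QM Std3 ![5, 1, 0] :=
  QM_cert (n := 3) (k := 6) ![0, 0, 0, 0, 0, 1] ![false, false, false, false, false, true]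
    ![![2, 0, 1], ![1, 3, 2], ![3, 2, 4], ![2, 3, 1], ![1, 0, 4], ![0, 4, 3]]
    ![![0, 1, 5], ![0, 4, 5], ![3, 2, 0], ![1, 2, 3], ![4, 3, 1], ![5, 2, 4]]
    (by decide +kernel) _ (by decide)

lemma q3_6_0_0 : QM Std3 ![6, 0, 0] :=
  QM_cert (n := 3) (k := 6) ![0, 0, 0, 0, 0, 0] ![false, false, false, false, false, false]
    ![![2, 0, 1], ![2, 1, 4], ![0, 4, 3], ![4, 2, 3], ![0, 2, 3], ![4, 1, 0]]
    ![![0, 1, 5], ![3, 0, 4], ![5, 3, 0], ![1, 5, 2], ![2, 4, 1], ![2, 4, 3]]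
    (by decide +kernel) _ (by decide)

lemma q3_7_0_0 : QM Std3 ![7, 0, 0] :=
  QM_cert (n := 3) (k := 7) ![0, 0, 0, 0, 0, 0, 0] ![false, false, false, false, false, false, false]
    ![![2, 4, 0], ![4, 3, 1], ![4, 2, 1], ![4, 0, 2], ![3, 1, 0], ![0, 2, 3], ![1, 3, 4]]
    ![![6, 2, 0], ![1, 0, 5], ![0, 4, 1], ![4, 1, 2], ![2, 3, 6], ![5, 3, 4], ![6, 5, 3]]
    (by decide +kernel) _ (by decide)

lemma add3 {a b c a' b' c' a'' b'' c'' : ℕ} (h : QM Std3 ![a, b, c]) (h' : QM Std3 ![a', b', c'])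
    (h1 : a'' = a + a') (h2 : b'' = b + b') (h3 : c'' = c + c') :
    QM Std3 ![a'', b'', c''] := by
  have h4 := h.add h'
  have h5 : (![a, b, c] : Fin 3 → ℕ) + ![a', b', c'] = ![a'', b'', c''] := by
    funext d
    fin_cases d <;> simp [h1, h2, h3]
  rwa [h5] at h4

lemma q3_0_0_6 : QM Std3 ![0, 0, 6] := add3 q3_0_0_3 q3_0_0_3 rfl rfl rfl

lemma q3_0_1_5 : QM Std3 ![0, 1, 5] := add3 q3_0_0_3 q3_0_1_2 rfl rfl rfl

lemma q3_0_2_4 : QM Std3 ![0, 2, 4] := add3 q3_0_0_3 q3_0_2_1 rfl rfl rfl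

lemma q3_0_3_3 : QM Std3 ![0, 3, 3] := add3 q3_0_0_3 q3_0_3_0 rfl rfl rfl

lemma q3_0_4_2 : QM Std3 ![0, 4, 2] := add3 q3_0_1_2 q3_0_3_0 rfl rfl rfl

lemma q3_0_5_1 : QM Std3 ![0, 5, 1] := add3 q3_0_2_1 q3_0_3_0 rfl rfl rfl

lemma q3_0_6_0 : QM Std3 ![0, 6, 0] := add3 q3_0_3_0 q3_0_3_0 rfl rfl rfl

lemma q3_1_1_4 : QM Std3 ![1, 1, 4] := add3 q3_0_0_3 q3_1_1_1 rfl rfl rfl

lemma q3_1_2_3 : QM Std3 ![1, 2, 3] := add3 q3_0_0_3 q3_1_2_0 rfl rfl rfl

lemma q3_1_3_2 : QM Std3 ![1, 3, 2] := add3 q3_0_1_2 q3_1_2_0 rfl rfl rfl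

lemma q3_1_4_1 : QM Std3 ![1, 4, 1] := add3 q3_0_2_1 q3_1_2_0 rfl rfl rfl

lemma q3_1_5_0 : QM Std3 ![1, 5, 0] := add3 q3_0_3_0 q3_1_2_0 rfl rfl rfl

lemma q3_2_0_4 : QM Std3 ![2, 0, 4] := add3 q3_0_0_3 q3_2_0_1 rfl rfl rfl

lemma q3_2_1_3 : QM Std3 ![2, 1, 3] := add3 q3_0_0_3 q3_2_1_0 rfl rfl rfl

lemma q3_2_2_2 : QM Std3 ![2, 2, 2] := add3 q3_0_1_2 q3_2_1_0 rfl rfl rfl

lemma q3_2_3_1 : QM Std3 ![2, 3, 1] := add3 q3_0_2_1 q3_2_1_0 rfl rfl rfl

lemma q3_2_4_0 : QM Std3 ![2, 4, 0] := add3 q3_0_3_0 q3_2_1_0 rfl rfl rfl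

lemma q3_3_1_2 : QM Std3 ![3, 1, 2] := add3 q3_1_1_1 q3_2_0_1 rfl rfl rfl

lemma q3_3_2_1 : QM Std3 ![3, 2, 1] := add3 q3_1_1_1 q3_2_1_0 rfl rfl rfl

lemma q3_3_3_0 : QM Std3 ![3, 3, 0] := add3 q3_1_2_0 q3_2_1_0 rfl rfl rfl

lemma q3_4_0_2 : QM Std3 ![4, 0, 2] := add3 q3_2_0_1 q3_2_0_1 rfl rfl rfl

lemma q3_4_1_1 : QM Std3 ![4, 1, 1] := add3 q3_2_0_1 q3_2_1_0 rfl rfl rfl

lemma q3_4_2_0 : QM Std3 ![4, 2, 0] := add3 q3_2_1_0 q3_2_1_0 rfl rfl rfl

lemma q3_0_0_7 : QM Std3 ![0, 0, 7] := add3 q3_0_0_3 q3_0_0_4 rfl rfl rfl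

lemma q3_0_1_6 : QM Std3 ![0, 1, 6] := add3 q3_0_0_3 q3_0_1_3 rfl rfl rfl

lemma q3_0_2_5 : QM Std3 ![0, 2, 5] := add3 q3_0_0_3 q3_0_2_2 rfl rfl rfl

lemma q3_0_3_4 : QM Std3 ![0, 3, 4] := add3 q3_0_0_3 q3_0_3_1 rfl rfl rfl

lemma q3_0_4_3 : QM Std3 ![0, 4, 3] := add3 q3_0_0_3 q3_0_4_0 rfl rfl rfl

lemma q3_0_5_2 : QM Std3 ![0, 5, 2] := add3 q3_0_1_2 q3_0_4_0 rfl rfl rfl

lemma q3_0_6_1 : QM Std3 ![0, 6, 1] := add3 q3_0_2_1 q3_0_4_0 rfl rfl rfl

lemma q3_0_7_0 : QM Std3 ![0, 7, 0] := add3 q3_0_3_0 q3_0_4_0 rfl rfl rfl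

lemma q3_1_0_6 : QM Std3 ![1, 0, 6] := add3 q3_0_0_3 q3_1_0_3 rfl rfl rfl

lemma q3_1_1_5 : QM Std3 ![1, 1, 5] := add3 q3_0_0_3 q3_1_1_2 rfl rfl rfl

lemma q3_1_2_4 : QM Std3 ![1, 2, 4] := add3 q3_0_0_3 q3_1_2_1 rfl rfl rfl

lemma q3_1_3_3 : QM Std3 ![1, 3, 3] := add3 q3_0_0_3 q3_1_3_0 rfl rfl rfl

lemma q3_1_4_2 : QM Std3 ![1, 4, 2] := add3 q3_0_1_2 q3_1_3_0 rfl rfl rfl

lemma q3_1_5_1 : QM Std3 ![1, 5, 1] := add3 q3_0_2_1 q3_1_3_0 rfl rfl rfl

lemma q3_1_6_0 : QM Std3 ![1, 6, 0] := add3 q3_0_3_0 q3_1_3_0 rfl rfl rfl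

lemma q3_2_0_5 : QM Std3 ![2, 0, 5] := add3 q3_0_0_3 q3_2_0_2 rfl rfl rfl

lemma q3_2_1_4 : QM Std3 ![2, 1, 4] := add3 q3_0_0_3 q3_2_1_1 rfl rfl rfl

lemma q3_2_2_3 : QM Std3 ![2, 2, 3] := add3 q3_0_0_3 q3_2_2_0 rfl rfl rfl

lemma q3_2_3_2 : QM Std3 ![2, 3, 2] := add3 q3_0_1_2 q3_2_2_0 rfl rfl rfl

lemma q3_2_4_1 : QM Std3 ![2, 4, 1] := add3 q3_0_2_1 q3_2_2_0 rfl rfl rfl

lemma q3_2_5_0 : QM Std3 ![2, 5, 0] := add3 q3_0_3_0 q3_2_2_0 rfl rfl rfl

lemma q3_3_0_4 : QM Std3 ![3, 0, 4] := add3 q3_0_0_3 q3_3_0_1 rfl rfl rfl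

lemma q3_3_1_3 : QM Std3 ![3, 1, 3] := add3 q3_0_0_3 q3_3_1_0 rfl rfl rfl

lemma q3_3_2_2 : QM Std3 ![3, 2, 2] := add3 q3_0_1_2 q3_3_1_0 rfl rfl rfl

lemma q3_3_3_1 : QM Std3 ![3, 3, 1] := add3 q3_0_2_1 q3_3_1_0 rfl rfl rfl

lemma q3_3_4_0 : QM Std3 ![3, 4, 0] := add3 q3_0_3_0 q3_3_1_0 rfl rfl rfl

lemma q3_4_0_3 : QM Std3 ![4, 0, 3] := add3 q3_0_0_3 q3_4_0_0 rfl rfl rfl

lemma q3_4_1_2 : QM Std3 ![4, 1, 2] := add3 q3_0_1_2 q3_4_0_0 rfl rfl rfl

lemma q3_4_2_1 : QM Std3 ![4, 2, 1] := add3 q3_0_2_1 q3_4_0_0 rfl rfl rfl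

lemma q3_4_3_0 : QM Std3 ![4, 3, 0] := add3 q3_0_3_0 q3_4_0_0 rfl rfl rfl

lemma q3_5_0_2 : QM Std3 ![5, 0, 2] := add3 q3_2_0_1 q3_3_0_1 rfl rfl rfl

lemma q3_5_1_1 : QM Std3 ![5, 1, 1] := add3 q3_1_1_1 q3_4_0_0 rfl rfl rfl

lemma q3_5_2_0 : QM Std3 ![5, 2, 0] := add3 q3_1_2_0 q3_4_0_0 rfl rfl rfl

lemma q3_6_0_1 : QM Std3 ![6, 0, 1] := add3 q3_2_0_1 q3_4_0_0 rfl rfl rfl

lemma q3_6_1_0 : QM Std3 ![6, 1, 0] := add3 q3_2_1_0 q3_4_0_0 rfl rfl rfl

lemma small3 (a b c : ℕ) (h : 4 ≤ a + b + c) (h' : a + b + c ≤ 7) : QM Std3 ![a, b, c] := by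
  have ha : a ≤ 7 := by omega
  have hb : b ≤ 7 := by omega
  have hc : c ≤ 7 := by omega
  interval_cases a
  · have hb : b ≤ 7 := by omega
    interval_cases b
    · have hc1 : 4 ≤ c := by omega
      have hc2 : c ≤ 7 := by omega
      interval_cases c
      · exact q3_0_0_4
      · exact q3_0_0_5
      · exact q3_0_0_6
      · exact q3_0_0_7
    · have hc1 : 3 ≤ c := by omega
      have hc2 : c ≤ 6 := by omega
      interval_cases c
      · exact q3_0_1_3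
      · exact q3_0_1_4
      · exact q3_0_1_5
      · exact q3_0_1_6
    · have hc1 : 2 ≤ c := by omega
      have hc2 : c ≤ 5 := by omega
      interval_cases c
      · exact q3_0_2_2
      · exact q3_0_2_3
      · exact q3_0_2_4
      · exact q3_0_2_5
    · have hc1 : 1 ≤ c := by omega
      have hc2 : c ≤ 4 := by omega
      interval_cases c
      · exact q3_0_3_1
      · exact q3_0_3_2
      · exact q3_0_3_3
      · exact q3_0_3_4
    · have hc1 : 0 ≤ c := by omega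
      have hc2 : c ≤ 3 := by omega
      interval_cases c
      · exact q3_0_4_0
      · exact q3_0_4_1
      · exact q3_0_4_2
      · exact q3_0_4_3
    · have hc1 : 0 ≤ c := by omega
      have hc2 : c ≤ 2 := by omega
      interval_cases c
      · exact q3_0_5_0
      · exact q3_0_5_1
      · exact q3_0_5_2
    · have hc1 : 0 ≤ c := by omega
      have hc2 : c ≤ 1 := by omega
      interval_cases c
      · exact q3_0_6_0
      · exact q3_0_6_1
    · have hc : c = 0 := by omega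
      subst hc
      exact q3_0_7_0
  · have hb : b ≤ 6 := by omega
    interval_cases b
    · have hc1 : 3 ≤ c := by omega
      have hc2 : c ≤ 6 := by omega
      interval_cases c
      · exact q3_1_0_3
      · exact q3_1_0_4
      · exact q3_1_0_5
      · exact q3_1_0_6
    · have hc1 : 2 ≤ c := by omega
      have hc2 : c ≤ 5 := by omega
      interval_cases c
      · exact q3_1_1_2
      · exact q3_1_1_3
      · exact q3_1_1_4
      · exact q3_1_1_5
    · have hc1 : 1 ≤ c := by omega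
      have hc2 : c ≤ 4 := by omega
      interval_cases c
      · exact q3_1_2_1
      · exact q3_1_2_2
      · exact q3_1_2_3
      · exact q3_1_2_4
    · have hc1 : 0 ≤ c := by omega
      have hc2 : c ≤ 3 := by omega
      interval_cases c
      · exact q3_1_3_0
      · exact q3_1_3_1
      · exact q3_1_3_2
      · exact q3_1_3_3
    · have hc1 : 0 ≤ c := by omega
      have hc2 : c ≤ 2 := by omega
      interval_cases c
      · exact q3_1_4_0
      · exact q3_1_4_1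
      · exact q3_1_4_2
    · have hc1 : 0 ≤ c := by omega
      have hc2 : c ≤ 1 := by omega
      interval_cases c
      · exact q3_1_5_0
      · exact q3_1_5_1
    · have hc : c = 0 := by omega
      subst hc
      exact q3_1_6_0
  · have hb : b ≤ 5 := by omega
    interval_cases b
    · have hc1 : 2 ≤ c := by omega
      have hc2 : c ≤ 5 := by omega
      interval_cases c
      · exact q3_2_0_2
      · exact q3_2_0_3
      · exact q3_2_0_4
      · exact q3_2_0_5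
    · have hc1 : 1 ≤ c := by omega
      have hc2 : c ≤ 4 := by omega
      interval_cases c
      · exact q3_2_1_1
      · exact q3_2_1_2
      · exact q3_2_1_3
      · exact q3_2_1_4
    · have hc1 : 0 ≤ c := by omega
      have hc2 : c ≤ 3 := by omega
      interval_cases c
      · exact q3_2_2_0
      · exact q3_2_2_1
      · exact q3_2_2_2
      · exact q3_2_2_3
    · have hc1 : 0 ≤ c := by omega
      have hc2 : c ≤ 2 := by omega
      interval_cases c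
      · exact q3_2_3_0
      · exact q3_2_3_1
      · exact q3_2_3_2
    · have hc1 : 0 ≤ c := by omega
      have hc2 : c ≤ 1 := by omega
      interval_cases c
      · exact q3_2_4_0
      · exact q3_2_4_1
    · have hc : c = 0 := by omega
      subst hc
      exact q3_2_5_0
  · have hb : b ≤ 4 := by omega
    interval_cases b
    · have hc1 : 1 ≤ c := by omega
      have hc2 : c ≤ 4 := by omega
      interval_cases c
      · exact q3_3_0_1
      · exact q3_3_0_2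
      · exact q3_3_0_3
      · exact q3_3_0_4
    · have hc1 : 0 ≤ c := by omega
      have hc2 : c ≤ 3 := by omega
      interval_cases c
      · exact q3_3_1_0
      · exact q3_3_1_1
      · exact q3_3_1_2
      · exact q3_3_1_3
    · have hc1 : 0 ≤ c := by omega
      have hc2 : c ≤ 2 := by omega
      interval_cases c
      · exact q3_3_2_0
      · exact q3_3_2_1
      · exact q3_3_2_2
    · have hc1 : 0 ≤ c := by omega
      have hc2 : c ≤ 1 := by omega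
      interval_cases c
      · exact q3_3_3_0
      · exact q3_3_3_1
    · have hc : c = 0 := by omega
      subst hc
      exact q3_3_4_0
  · have hb : b ≤ 3 := by omega
    interval_cases b
    · have hc1 : 0 ≤ c := by omega
      have hc2 : c ≤ 3 := by omega
      interval_cases c
      · exact q3_4_0_0
      · exact q3_4_0_1
      · exact q3_4_0_2
      · exact q3_4_0_3
    · have hc1 : 0 ≤ c := by omega
      have hc2 : c ≤ 2 := by omega
      interval_cases c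
      · exact q3_4_1_0
      · exact q3_4_1_1
      · exact q3_4_1_2
    · have hc1 : 0 ≤ c := by omega
      have hc2 : c ≤ 1 := by omega
      interval_cases c
      · exact q3_4_2_0
      · exact q3_4_2_1
    · have hc : c = 0 := by omega
      subst hc
      exact q3_4_3_0
  · have hb : b ≤ 2 := by omega
    interval_cases b
    · have hc1 : 0 ≤ c := by omega
      have hc2 : c ≤ 2 := by omega
      interval_cases c
      · exact q3_5_0_0
      · exact q3_5_0_1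
      · exact q3_5_0_2
    · have hc1 : 0 ≤ c := by omega
      have hc2 : c ≤ 1 := by omega
      interval_cases c
      · exact q3_5_1_0
      · exact q3_5_1_1
    · have hc : c = 0 := by omega
      subst hc
      exact q3_5_2_0
  · have hb : b ≤ 1 := by omega
    interval_cases b
    · have hc1 : 0 ≤ c := by omega
      have hc2 : c ≤ 1 := by omega
      interval_cases c
      · exact q3_6_0_0
      · exact q3_6_0_1
    · have hc : c = 0 := by omega
      subst hc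
      exact q3_6_1_0
  · have hb : b ≤ 0 := by omega
    interval_cases b
    · have hc : c = 0 := by omega
      subst hc
      exact q3_7_0_0

lemma all3 : ∀ k a b c : ℕ, a + b + c = k → 4 ≤ k → QM Std3 ![a, b, c] := by
  intro k
  induction k using Nat.strong_induction_on with
  | _ k ih =>
    intro a b c habc hk
    rcases Nat.lt_or_ge k 8 with h | h
    · exact small3 a b c (by omega) (by omega)
    · -- take away four trees
      obtain ⟨a', b', c', h1, h2, h3, h4⟩ :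
          ∃ a' b' c', a' ≤ a ∧ b' ≤ b ∧ c' ≤ c ∧ a' + b' + c' = 4 := by
        refine ⟨min a 4, min b (4 - min a 4), 4 - min a 4 - min b (4 - min a 4), ?_, ?_, ?_, ?_⟩ <;>
          omega
      have h5 := ih (k - 4) (by omega) (a - a') (b - b') (c - c') (by omega) (by omega)
      have h6 := small3 a' b' c' (by omega) (by omega)
      exact add3 h5 h6 (by omega) (by omega) (by omega)

theorem P_three {k : ℕ} (hk : 4 ≤ k) : P 3 k := by
  refine P_of_QM Std3 k exists_std3 fun m hm => ?_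
  have h1 : m = ![m 0, m 1, m 2] := by
    funext c
    fin_cases c <;> rfl
  rw [h1]
  refine all3 k _ _ _ ?_ hk
  rw [← hm, Fin.sum_univ_three]

end Pool.Agent.Y425.Pack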