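import Mathlib

/-!
Packing bipartite patterns into complete bipartite graphs: the basic constructions.
A pattern is a bipartite graph with classes of size `n`, with `2 n - 1` edges and no isolated vertex.
-/

namespace Pool.Agent.Y425.Pack

open Finset Function

variable {n : ℕ}

/-- A bipartite graph with classes `Fin n` and `Fin n`, with `2 n - 1` edges and no isolated
vertex. -/
structure IsPat (n : ℕ) (R : Fin n → Fin n → Bool) : Prop where
  card : (univ.filter fun p : Fin n × Fin n => R p.1 p.2 = true).card = 2 * n - 1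
  left : ∀ a, ∃ b, R a b = true
  right : ∀ b, ∃ a, R a b = true

/-- The family `R` of patterns packs into the complete bipartite graph with classes `X`, `Y`. -/
def Pk (X : Type) {I : Type} (R : I → Fin n → Fin n → Bool) (Y : Type) : Prop :=
  ∃ (α : I → Fin n → X) (β : I → Fin n → Y),
    (∀ i, Injective (α i)) ∧ (∀ i, Injective (β i)) ∧
    ∀ i j, i ≠ j → ∀ a b a' b', R i a b = true → R j a' b' = true → α i a = α j a' →
      β i b ≠ β j b'

lemma Pk.sum {X I J Y Z : Type} {R : I → Fin n → Fin n → Bool} {R' : J → Fin n → Fin n → Bool}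
    (h : Pk X R Y) (h' : Pk X R' Z) : Pk X (Sum.elim R R') (Y ⊕ Z) := by
  obtain ⟨α, β, ha, hb, hd⟩ := h
  obtain ⟨α', β', ha', hb', hd'⟩ := h'
  refine ⟨Sum.elim α α', fun i => Sum.rec (fun i b => Sum.inl (β i b))
    (fun j b => Sum.inr (β' j b)) i, ?_, ?_, ?_⟩
  · rintro (i | j)
    · exact ha i
    · exact ha' j
  · rintro (i | j)
    · exact fun x y hxy => hb i (Sum.inl_injective hxy)
    · exact fun x y hxy => hb' j (Sum.inr_injective hxy)
  · rintro (i | i) (j | j) hij a b a' b' h1 h2 h3
    · simp only [ne_eq, Sum.inl.injEq]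
      exact hd i j (fun h => hij (by rw [h])) a b a' b' h1 h2 h3
    · simp
    · simp
    · simp only [ne_eq, Sum.inr.injEq]
      exact hd' i j (fun h => hij (by rw [h])) a b a' b' h1 h2 h3

lemma Pk.congr {X I J Y Z : Type} {R : I → Fin n → Fin n → Bool} {R' : J → Fin n → Fin n → Bool}
    (h : Pk X R Y) (e : J ≃ I) (hR : ∀ j, R' j = R (e j)) (f : Y ≃ Z) : Pk X R' Z := by
  obtain ⟨α, β, ha, hb, hd⟩ := h
  refine ⟨fun j => α (e j), fun j b => f (β (e j) b), fun j => ha _,
    fun j x y hxy => hb _ (f.injective hxy), ?_⟩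
  intro i j hij a b a' b' h1 h2 h3 h4
  rw [hR] at h1 h2
  exact hd (e i) (e j) (fun h => hij (e.injective h)) a b a' b' h1 h2 h3 (f.injective h4)

lemma exists_perm {ι X : Type} [Finite X] (f g : ι → X) (hf : Injective f) (hg : Injective g) :
    ∃ π : Equiv.Perm X, ∀ i, π (f i) = g i := by
  classical
  have := Fintype.ofFinite X
  let e : {x // x ∈ Set.range f} ≃ {x // x ∈ Set.range g} :=
    (Equiv.ofInjective f hf).symm.trans (Equiv.ofInjective g hg)
  refine ⟨e.extendSubtype, fun i => ?_⟩
  rw [Equiv.extendSubtype_apply_of_mem e (f i) ⟨i, rfl⟩]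
  have : (Equiv.ofInjective f hf).symm ⟨f i, ⟨i, rfl⟩⟩ = i := by
    rw [Equiv.symm_apply_eq]; rfl
  simp only [e, Equiv.trans_apply, this]
  rfl

lemma exists_perm_image {X : Type} [Finite X] [DecidableEq X] (A B : Finset X)
    (h : A.card = B.card) : ∃ π : Equiv.Perm X, A.image π = B := by
  classical
  let e : A ≃ B := Finset.equivOfCardEq h
  obtain ⟨π, hπ⟩ := exists_perm (fun a : A => (a : X)) (fun a : A => ((e a : B) : X))
    Subtype.val_injective (fun a b hab => e.injective (Subtype.val_injective hab))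
  refine ⟨π, ?_⟩
  ext x
  simp only [Finset.mem_image]
  constructor
  · rintro ⟨a, ha, rfl⟩
    have := hπ ⟨a, ha⟩
    simp only at this
    rw [this]
    exact (e ⟨a, ha⟩).2
  · intro hx
    refine ⟨(e.symm ⟨x, hx⟩ : A), (e.symm ⟨x, hx⟩).2, ?_⟩
    have := hπ (e.symm ⟨x, hx⟩)
    simpa using this

/-- Data attached to a pattern `T`: an embedding `φ` of the first class in `X`, an injection `ε` of
the edges in `X`, and for each `b` a permutation of `X` with `φ a ↦ ε a b` for all neighbours
`a` of `b`. -/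
structure Data (X : Type) (T : Fin n → Fin n → Bool) where
  φ : Fin n → X
  φinj : Injective φ
  ε : Fin n → Fin n → X
  εinj : ∀ a b a' b', T a b = true → T a' b' = true → ε a b = ε a' b' → a = a' ∧ b = b'
  p : Fin n → Equiv.Perm X
  hp : ∀ a b, T a b = true → p b (φ a) = ε a b

lemma exists_data (X : Type) [Fintype X] (T : Fin n → Fin n → Bool) (hT : IsPat n T)
    (hX : Fintype.card X = 2 * n - 1) (hn : 1 ≤ n) : Nonempty (Data X T) := by
  classical
  have h1 : Fintype.card (Fin n) ≤ Fintype.card X := by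
    rw [hX, Fintype.card_fin]; omega
  obtain ⟨φ⟩ := Function.Embedding.nonempty_of_card_le h1
  have h2 : Fintype.card {p : Fin n × Fin n // T p.1 p.2 = true} = Fintype.card X := by
    rw [Fintype.card_subtype, hT.card, hX]
  let ε : {p : Fin n × Fin n // T p.1 p.2 = true} ≃ X := Fintype.equivOfCardEq h2
  have : Nonempty X := Fintype.card_pos_iff.1 (by omega)
  let ε' : Fin n → Fin n → X := fun a b =>
    if h : T a b = true then ε ⟨(a, b), h⟩ else Classical.arbitrary X
  have hε : ∀ a b a' b', T a b = true → T a' b' = true → ε' a b = ε' a' b' → a = a' ∧ b = b' := by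
    intro a b a' b' h h' he
    simp only [ε', h, h', dif_pos] at he
    have := ε.injective he
    simp only [Subtype.mk.injEq, Prod.mk.injEq] at this
    exact this
  have hp : ∀ b : Fin n, ∃ π : Equiv.Perm X, ∀ a, T a b = true → π (φ a) = ε' a b := by
    intro b
    obtain ⟨π, hπ⟩ := exists_perm (fun a : {a // T a b = true} => φ a)
      (fun a : {a // T a b = true} => ε' a b)
      (fun x y hxy => Subtype.val_injective (φ.injective hxy))
      (fun x y hxy => Subtype.val_injective (hε _ _ _ _ x.2 y.2 hxy).1)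
    exact ⟨π, fun a ha => hπ ⟨a, ha⟩⟩
  choose p hp using hp
  exact ⟨⟨φ, φ.injective, ε', hε, p, fun a b h => hp b a h⟩⟩

/-- The row of the star `b` of the copy `g` in the symmetric packing. -/
def rowB [NeZero n] {X : Type} {T : Fin n → Fin n → Bool} (D : Data X T)
    (g : Equiv.Perm X × Fin n) (b : Fin n) : Equiv.Perm X × Fin n :=
  (g.1 * (D.p b)⁻¹, g.2 + b)

lemma rowB_inj [NeZero n] {X : Type} {T : Fin n → Fin n → Bool} (D : Data X T)
    (g : Equiv.Perm X × Fin n) : Injective (rowB D g) := by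
  intro b b' h
  simp only [rowB, Prod.mk.injEq] at h
  exact add_left_cancel h.2

lemma rowB_disj [NeZero n] {X : Type} {T : Fin n → Fin n → Bool} (D : Data X T)
    (g g' : Equiv.Perm X × Fin n) (a b a' b' : Fin n) (h1 : T a b = true) (h2 : T a' b' = true)
    (h3 : g.1 (D.φ a) = g'.1 (D.φ a')) (h4 : rowB D g b = rowB D g' b') :
    g = g' ∧ b = b' := by
  simp only [rowB, Prod.mk.injEq] at h4
  obtain ⟨h4, h5⟩ := h4
  have e1 : g.1 (D.φ a) = (g.1 * (D.p b)⁻¹) (D.ε a b) := by
    rw [← D.hp a b h1]; simp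
  have e2 : g'.1 (D.φ a') = (g'.1 * (D.p b')⁻¹) (D.ε a' b') := by
    rw [← D.hp a' b' h2]; simp
  rw [e1, e2, h4] at h3
  have h6 := D.εinj a b a' b' h1 h2 ((g'.1 * (D.p b')⁻¹).injective h3)
  obtain ⟨-, rfl⟩ := h6
  have h7 : g.1 = g'.1 := mul_right_cancel h4
  have h8 : g.2 = g'.2 := add_right_cancel h5
  exact ⟨Prod.ext h7 h8, rfl⟩

/-- The symmetric packing of `n (2n-1)!` copies of one pattern. -/
lemma pk_sym [NeZero n] {X : Type} {T : Fin n → Fin n → Bool} (D : Data X T) :
    Pk X (fun _ : Equiv.Perm X × Fin n => T) (Equiv.Perm X × Fin n) := by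
  refine ⟨fun g a => g.1 (D.φ a), rowB D, fun g x y h => D.φinj (g.1.injective h),
    rowB_inj D, ?_⟩
  intro g g' hg a b a' b' h1 h2 h3 h4
  exact hg (rowB_disj D g g' a b a' b' h1 h2 h3 h4).1

/-- Resolution of the conflicts: a packing of one copy of `S` and copies of `T` indexed by `I`, in
which different stars of the same copy of `T` may lie in the same row, becomes a packing after
adding symmetric packings. -/
lemma resolve [NeZero n] {X I Y : Type} [Finite X] {S T : Fin n → Fin n → Bool} (D : Data X T)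
    (αs : Fin n → X) (βs : Fin n → Y) (α : I → Fin n → X) (β : I → Fin n → Y)
    (hαs : Injective αs) (hβs : Injective βs) (hα : ∀ i, Injective (α i))
    (h1 : ∀ i j b b', (i, b) ≠ (j, b') → β i b = β j b' → ∀ a a', T a b = true → T a' b' = true →
      α i a ≠ α j a')
    (h2 : ∀ j b b', βs b = β j b' → ∀ a a', S a b = true → T a' b' = true → αs a ≠ α j a') :
    Pk X (Sum.elim (fun _ : Unit => S)
      (fun _ : I ⊕ ((I × Fin n) × (Equiv.Perm X × Fin n)) => T))
      (Y ⊕ ((I × Fin n) × (Equiv.Perm X × Fin n))) := by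
  classical
  have hg : ∀ i, ∃ g : Equiv.Perm X, ∀ a, g (D.φ a) = α i a := fun i =>
    exists_perm D.φ (α i) D.φinj (hα i)
  choose g hg using hg
  let γ : I → Equiv.Perm X × Fin n := fun i => (g i, 0)
  have hγ : ∀ i a, (γ i).1 (D.φ a) = α i a := fun i a => hg i a
  let A : Unit ⊕ (I ⊕ ((I × Fin n) × (Equiv.Perm X × Fin n))) → Fin n → X := fun t =>
    match t with
    | Sum.inl _ => αs
    | Sum.inr (Sum.inl i) => α i
    | Sum.inr (Sum.inr q) => fun a => q.2.1 (D.φ a)
  let B : Unit ⊕ (I ⊕ ((I × Fin n) × (Equiv.Perm X × Fin n))) → Fin n →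
      (Y ⊕ ((I × Fin n) × (Equiv.Perm X × Fin n))) := fun t =>
    match t with
    | Sum.inl _ => fun b => Sum.inl (βs b)
    | Sum.inr (Sum.inl i) => fun b => Sum.inr ((i, b), rowB D (γ i) b)
    | Sum.inr (Sum.inr q) => fun b =>
        if q.2 = γ q.1.1 ∧ b = q.1.2 then Sum.inl (β q.1.1 q.1.2) else Sum.inr (q.1, rowB D q.2 b)
  -- the asymmetric disjointness statement
  have key : ∀ s t : Unit ⊕ (I ⊕ ((I × Fin n) × (Equiv.Perm X × Fin n))), s ≠ t →
      ∀ a b a' b', (Sum.elim (fun _ : Unit => S)
      (fun _ : I ⊕ ((I × Fin n) × (Equiv.Perm X × Fin n)) => T)) s a b = true →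
      (Sum.elim (fun _ : Unit => S)
      (fun _ : I ⊕ ((I × Fin n) × (Equiv.Perm X × Fin n)) => T)) t a' b' = true →
      A s a = A t a' → B s b ≠ B t b' := by
    -- tree against copy
    have k1 : ∀ i (q : (I × Fin n) × (Equiv.Perm X × Fin n)) a b a' b', T a b = true →
        T a' b' = true → α i a = q.2.1 (D.φ a') →
        B (Sum.inr (Sum.inl i)) b ≠ B (Sum.inr (Sum.inr q)) b' := by
      intro i q a b a' b' e1 e2 e3 e4
      simp only [B] at e4
      split_ifs at e4 with hc
      simp only [Sum.inr.injEq, Prod.mk.injEq] at e4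
      obtain ⟨e4, e5⟩ := e4
      rw [← hγ i a] at e3
      obtain ⟨e6, e7⟩ := rowB_disj D (γ i) q.2 a b a' b' e1 e2 e3 e5
      apply hc
      rw [← e4]
      exact ⟨e6.symm, e7.symm⟩
    -- the special tree against a copy
    have k2 : ∀ (q : (I × Fin n) × (Equiv.Perm X × Fin n)) a b a' b', S a b = true →
        T a' b' = true → αs a = q.2.1 (D.φ a') →
        B (Sum.inl ()) b ≠ B (Sum.inr (Sum.inr q)) b' := by
      intro q a b a' b' e1 e2 e3 e4
      simp only [B] at e4
      split_ifs at e4 with hc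
      simp only [Sum.inl.injEq] at e4
      obtain ⟨hc1, hc2⟩ := hc
      rw [hc1, hγ] at e3
      subst hc2
      exact h2 q.1.1 b q.1.2 e4 a a' e1 e2 e3
    rintro (_ | i | q) (_ | j | q') hst a b a' b' e1 e2 e3
    · exact absurd rfl hst
    · simp only [B]; simp
    · exact k2 q' a b a' b' e1 e2 e3
    · simp only [B]; simp
    · have hij : i ≠ j := fun h => hst (by rw [h])
      simp only [B, ne_eq, Sum.inr.injEq, Prod.mk.injEq, not_and]
      intro h
      exact absurd h.1 hij
    · exact k1 i q' a b a' b' e1 e2 e3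
    · exact fun h => k2 q a' b' a b e2 e1 e3.symm h.symm
    · exact fun h => k1 j q a' b' a b e2 e1 e3.symm h.symm
    · have hqq : q ≠ q' := fun h => hst (by rw [h])
      intro e4
      simp only [B] at e4
      simp only [Sum.elim_inr] at e1 e2
      simp only [A] at e3
      split_ifs at e4 with hc hc' hc'
      · simp only [Sum.inl.injEq] at e4
        obtain ⟨c1, c2⟩ := hc
        obtain ⟨c3, c4⟩ := hc'
        rw [c1, c3, hγ, hγ] at e3
        have hne : (q.1.1, b) ≠ (q'.1.1, b') := by
          intro h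
          simp only [Prod.mk.injEq] at h
          apply hqq
          refine Prod.ext (Prod.ext h.1 ?_) ?_
          · rw [← c2, ← c4, h.2]
          · rw [c1, c3, h.1]
        subst c2
        subst c4
        exact h1 _ _ _ _ hne e4 a a' e1 e2 e3
      · simp only [Sum.inr.injEq, Prod.mk.injEq] at e4
        obtain ⟨e5, e6⟩ := rowB_disj D q.2 q'.2 a b a' b' e1 e2 e3 e4.2
        exact hqq (Prod.ext e4.1 e5)
  refine ⟨A, B, ?_, ?_, key⟩
  · rintro (_ | i | q)
    · exact hαs
    · exact hα i
    · exact fun x y h => D.φinj (q.2.1.injective h)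
  · rintro (_ | i | q)
    · exact fun x y h => hβs (Sum.inl_injective h)
    · intro x y h
      simp only [B, Sum.inr.injEq, Prod.mk.injEq] at h
      exact h.1.2
    · intro x y h
      simp only [B] at h
      split_ifs at h with c1 c2 c2
      · rw [c1.2, c2.2]
      · simp only [Sum.inr.injEq, Prod.mk.injEq] at h
        exact rowB_inj D _ h.2

end Pool.Agent.Y425.Pack
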