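import Pool.Agent.Y425.Pack.Pre

/-!
All large families of patterns pack.
-/

namespace Pool.Agent.Y425.Pack

open Finset Function

set_option linter.unusedSectionVars false

variable {n : ℕ}

/-- The type of the patterns. -/
abbrev Pat (n : ℕ) := {R : Fin n → Fin n → Bool // IsPat n R}

noncomputable instance : Fintype (Pat n) := Fintype.ofFinite _

/-- The multiset of patterns with multiplicities `m` packs. -/
def PM (X : Type) (m : Pat n → ℕ) : Prop :=
  Pk X (fun p : (Σ τ : Pat n, Fin (m τ)) => p.1.1) (Σ τ : Pat n, Fin (m τ))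

lemma PM.add {X : Type} {m m' : Pat n → ℕ} (h : PM X m) (h' : PM X m') : PM X (m + m') := by
  let E : (Σ τ : Pat n, Fin ((m + m') τ)) ≃ (Σ τ : Pat n, Fin (m τ)) ⊕ (Σ τ : Pat n, Fin (m' τ)) :=
    (Equiv.sigmaCongrRight fun τ => (finSumFinEquiv (m := m τ) (n := m' τ)).symm).trans
      (Equiv.sigmaSumDistrib (fun τ : Pat n => Fin (m τ)) (fun τ : Pat n => Fin (m' τ)))
  refine (h.sum h').congr E ?_ E.symm
  rintro ⟨τ, j⟩
  have hE : E ⟨τ, j⟩ = (Equiv.sigmaSumDistrib (fun τ : Pat n => Fin (m τ))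
      (fun τ : Pat n => Fin (m' τ))) ⟨τ, finSumFinEquiv.symm j⟩ := rfl
  rw [hE]
  rcases finSumFinEquiv.symm j with j | j <;> rfl

lemma PM.zero {X : Type} : PM X (0 : Pat n → ℕ) :=
  ⟨fun p => p.2.elim0, fun p => p.2.elim0, fun p => p.2.elim0, fun p => p.2.elim0,
    fun p => p.2.elim0⟩

lemma PM.nsmul {X : Type} {m : Pat n → ℕ} (h : PM X m) (k : ℕ) : PM X (k • m) := by
  induction k with
  | zero => rw [zero_smul]; exact PM.zero
  | succ k ih => rw [succ_nsmul]; exact ih.add h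

lemma PM.sum {X ι : Type} (s : Finset ι) (f : ι → Pat n → ℕ) (h : ∀ i ∈ s, PM X (f i)) :
    PM X (∑ i ∈ s, f i) :=
  Finset.sum_induction f (PM X) (fun _ _ h h' => h.add h') PM.zero h

lemma PM_of_labels {X I Y : Type} [Fintype I] [Fintype Y] [DecidableEq (Pat n)] (f : I → Pat n)
    (hY : Fintype.card Y = Fintype.card I) (h : Pk X (fun i => (f i).1) Y) :
    PM X (fun τ => Fintype.card {i // f i = τ}) := by
  let E : (Σ τ : Pat n, Fin (Fintype.card {i // f i = τ})) ≃ I :=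
    (Equiv.sigmaCongrRight fun τ => (Fintype.equivFin {i // f i = τ}).symm).trans
      (Equiv.sigmaFiberEquiv f)
  have hE : ∀ p, f (E p) = p.1 := by
    rintro ⟨τ, j⟩
    exact ((Fintype.equivFin {i // f i = τ}).symm j).2
  refine h.congr E (fun p => ?_) ((Fintype.equivOfCardEq hY).trans E.symm)
  rw [hE]

lemma Pk_of_PM {X I Y : Type} [Fintype I] [Fintype Y] [DecidableEq (Pat n)] (f : I → Pat n)
    (hY : Fintype.card Y = Fintype.card I) (h : PM X (fun τ => Fintype.card {i // f i = τ})) :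
    Pk X (fun i => (f i).1) Y := by
  let E : (Σ τ : Pat n, Fin (Fintype.card {i // f i = τ})) ≃ I :=
    (Equiv.sigmaCongrRight fun τ => (Fintype.equivFin {i // f i = τ}).symm).trans
      (Equiv.sigmaFiberEquiv f)
  have hE : ∀ p, f (E p) = p.1 := by
    rintro ⟨τ, j⟩
    exact ((Fintype.equivFin {i // f i = τ}).symm j).2
  refine Pk.congr h E.symm (fun i => ?_) (E.trans (Fintype.equivOfCardEq hY).symm)
  have := hE (E.symm i)
  rw [Equiv.apply_symm_apply] at this
  rw [this]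

/-- Every large multiset of patterns packs. -/
theorem all_large (hn : 1 ≤ n) (X : Type) [Fintype X] [DecidableEq X]
    (hX : Fintype.card X = 2 * n - 1) :
    ∃ k₀ : ℕ, ∀ m : Pat n → ℕ, k₀ ≤ ∑ τ, m τ → PM X m := by
  classical
  have : NeZero n := ⟨by omega⟩
  set N : ℕ := Fintype.card (Equiv.Perm X × Fin n) with hN
  have hNpos : 0 < N := by
    have : Nonempty (Equiv.Perm X × Fin n) := ⟨(1, ⟨0, hn⟩)⟩
    exact Fintype.card_pos
  have hcard1 : ∀ (τ ρ : Pat n) (k : ℕ), Fintype.card {i : Fin k // τ = ρ} =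
      (Pi.single τ k : Pat n → ℕ) ρ := by
    intro τ ρ k
    rw [Fintype.card_subtype]
    by_cases h : τ = ρ
    · subst h
      simp
    · rw [Pi.single_eq_of_ne (Ne.symm h)]
      simp [h]
  have hsym : ∀ τ : Pat n, PM X (Pi.single τ N) := by
    intro τ
    obtain ⟨D⟩ := exists_data X τ.1 τ.2 hX hn
    have h1 : Pk X (fun _ : Fin N => τ.1) (Fin N) :=
      (pk_sym D).congr (Fintype.equivFin _).symm (fun _ => rfl) (Fintype.equivFin _)
    have h2 := PM_of_labels (fun _ : Fin N => τ) rfl h1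
    convert h2 using 1
    funext ρ
    exact (hcard1 τ ρ N).symm
  have hmix : ∀ σ τ : Pat n, ∃ M : ℕ, PM X (Pi.single σ 1 + Pi.single τ (M * N)) := by
    intro σ τ
    obtain ⟨M, hM⟩ := mixed σ.2 τ.2 hn hX
    rw [← hN] at hM
    refine ⟨M, ?_⟩
    let f : Unit ⊕ Fin (M * N) → Pat n := Sum.elim (fun _ => σ) (fun _ => τ)
    have h1 : Pk X (fun i => (f i).1) (Unit ⊕ Fin (M * N)) := by
      refine hM.congr (Equiv.refl _) ?_ (Equiv.refl _)
      rintro (_ | j) <;> rfl
    have h2 := PM_of_labels f rfl h1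
    convert h2 using 1
    funext ρ
    rw [Pi.add_apply, ← hcard1, ← hcard1, Fintype.card_subtype, Fintype.card_subtype,
      Fintype.card_subtype, Finset.card_filter, Finset.card_filter, Finset.card_filter,
      Fintype.sum_sum_type]
    by_cases h0 : σ = ρ
    · by_cases h1 : τ = ρ
      · simp [f, h0, h1]
      · simp [f, h0, h1]
    · by_cases h1 : τ = ρ
      · simp [f, h0, h1]
      · simp [f, h0, h1]
  choose M hM using hmix
  obtain ⟨Ms, hMle⟩ : ∃ Ms, ∀ σ τ, M σ τ ≤ Ms := by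
    refine ⟨∑ σ, ∑ τ, M σ τ, fun σ τ => ?_⟩
    calc M σ τ ≤ ∑ τ, M σ τ :=
        Finset.single_le_sum (f := fun τ => M σ τ) (fun _ _ => Nat.zero_le _) (Finset.mem_univ τ)
      _ ≤ _ := Finset.single_le_sum (f := fun σ => ∑ τ, M σ τ) (fun _ _ => Nat.zero_le _)
        (Finset.mem_univ σ)
  have hu : ∀ σ τ : Pat n, PM X (Pi.single σ 1 + Pi.single τ (Ms * N)) := by
    intro σ τ
    have h1 := (hM σ τ).add ((hsym τ).nsmul (Ms - M σ τ))
    convert h1 using 1
    rw [add_assoc, ← Pi.single_smul, ← Pi.single_add]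
    congr 2
    rw [smul_eq_mul, ← add_mul, Nat.add_sub_cancel' (hMle σ τ)]
  set c : ℕ := Fintype.card (Pat n) with hc
  refine ⟨c * (N * (c * N * Ms + 1)) + 1, fun m hm => ?_⟩
  obtain ⟨τ, hτ⟩ : ∃ τ, N * (c * N * Ms + 1) ≤ m τ := by
    by_contra hcon
    push Not at hcon
    have : ∑ τ, m τ ≤ ∑ _τ : Pat n, (N * (c * N * Ms + 1)) :=
      Finset.sum_le_sum fun τ _ => (hcon τ).le
    rw [Finset.sum_const, Finset.card_univ, ← hc, smul_eq_mul] at this
    omega
  have hqτ : ∑ σ, (m σ % N) * Ms ≤ m τ / N := by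
    have h1 : ∑ σ, (m σ % N) * Ms ≤ ∑ _σ : Pat n, N * Ms :=
      Finset.sum_le_sum fun σ _ => Nat.mul_le_mul_right _ (Nat.mod_lt _ hNpos).le
    rw [Finset.sum_const, Finset.card_univ, ← hc, smul_eq_mul] at h1
    have h2 : c * N * Ms + 1 ≤ m τ / N := by
      rw [Nat.le_div_iff_mul_le hNpos, mul_comm]
      exact hτ
    have h3 : c * (N * Ms) = c * N * Ms := by ring
    omega
  have hdec : m = (∑ σ, (m σ % N) • (Pi.single σ 1 + Pi.single τ (Ms * N) : Pat n → ℕ)) +
      ∑ σ, (if σ = τ then m τ / N - ∑ σ, (m σ % N) * Ms else m σ / N) •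
        (Pi.single σ N : Pat n → ℕ) := by
    funext ρ
    simp only [Pi.add_apply, Finset.sum_apply, Pi.smul_apply, smul_eq_mul, Pi.single_apply,
      mul_add, Finset.sum_add_distrib, mul_ite, mul_one, mul_zero, Finset.sum_ite_eq,
      Finset.mem_univ, if_true]
    by_cases h : ρ = τ
    · subst h
      simp only [if_true]
      have h1 : ∑ x, m x % N * (Ms * N) = (∑ σ, (m σ % N) * Ms) * N := by
        rw [Finset.sum_mul]
        exact Finset.sum_congr rfl fun _ _ => by ring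
      have h2 := Nat.mod_add_div (m ρ) N
      rw [h1, Nat.sub_mul]
      have h3 : (∑ σ, (m σ % N) * Ms) * N ≤ m ρ / N * N := Nat.mul_le_mul_right _ hqτ
      have h4 : N * (m ρ / N) = m ρ / N * N := mul_comm _ _
      omega
    · simp only [h, if_false]
      have h2 := Nat.mod_add_div (m ρ) N
      have h4 : N * (m ρ / N) = m ρ / N * N := mul_comm _ _
      simp
      omega
  rw [hdec]
  refine PM.add ?_ ?_
  · exact PM.sum _ _ fun σ _ => (hu σ τ).nsmul _
  · exact PM.sum _ _ fun σ _ => (hsym σ).nsmul _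

/-- All families of at least `k₀` patterns pack. -/
theorem exists_bound (hn : 1 ≤ n) : ∃ k₀ : ℕ, ∀ k ≥ k₀, ∀ f : Fin k → Pat n,
    Pk (Fin (2 * n - 1)) (fun i => (f i).1) (Fin k) := by
  classical
  obtain ⟨k₀, hk₀⟩ := all_large hn (Fin (2 * n - 1)) (by simp)
  refine ⟨k₀, fun k hk f => Pk_of_PM f rfl (hk₀ _ ?_)⟩
  have h1 : ∑ τ, Fintype.card {i // f i = τ} = k := by
    rw [← Fintype.card_sigma, Fintype.card_congr (Equiv.sigmaFiberEquiv f), Fintype.card_fin]
  rw [h1]
  exact hk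

end Pool.Agent.Y425.Pack
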