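import Pool.Agent.Y425.Pack.Finite

/-!
From patterns to trees, and the parity obstruction.
-/

namespace Pool.Agent.Y425.Pack

open Finset Function

set_option linter.unusedSectionVars false

/-- The graphs `G i` pack into `H`: there are injective maps of the vertex sets which map edges to
edges of `H` such that the images of the edge sets are pairwise disjoint. -/
def PacksInto {ι W : Type} {V : ι → Type} (G : ∀ i, SimpleGraph (V i)) (H : SimpleGraph W) :
    Prop :=
  ∃ φ : ∀ i, V i → W, (∀ i, Injective (φ i)) ∧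
    (∀ i u v, (G i).Adj u v → H.Adj (φ i u) (φ i v)) ∧
    ∀ i j, i ≠ j → Disjoint (Sym2.map (φ i) '' (G i).edgeSet) (Sym2.map (φ j) '' (G j).edgeSet)

/-- `G` is a tree whose vertex set is the disjoint union of two independent sets with `n` vertices
each. -/
def IsBalancedTree (n : ℕ) {V : Type} (G : SimpleGraph V) : Prop :=
  G.IsTree ∧ ∃ A B : Set V, A ∪ B = Set.univ ∧ Disjoint A B ∧ A.encard = n ∧ B.encard = n ∧
    (∀ u ∈ A, ∀ v ∈ A, ¬ G.Adj u v) ∧ (∀ u ∈ B, ∀ v ∈ B, ¬ G.Adj u v)

/-- `P n k`: every family of `k` trees with `n` vertices in each class packs into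
`K_{2n-1,k}`. -/
def P (n k : ℕ) : Prop :=
  ∀ (V : Fin k → Type) (G : ∀ i, SimpleGraph (V i)), (∀ i, IsBalancedTree n (G i)) →
    PacksInto G (completeBipartiteGraph (Fin (2 * n - 1)) (Fin k))

/-- A labelling of a graph by the vertices of a pattern. -/
def Labels {n : ℕ} {V : Type} (G : SimpleGraph V) (R : Fin n → Fin n → Bool)
    (l : V → Fin n ⊕ Fin n) : Prop :=
  Injective l ∧ ∀ u v, G.Adj u v →
    (∃ a b, l u = Sum.inl a ∧ l v = Sum.inr b ∧ R a b = true) ∨
    (∃ a b, l u = Sum.inr b ∧ l v = Sum.inl a ∧ R a b = true)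

lemma packs_of_Pk {n k : ℕ} {V : Fin k → Type} (G : ∀ i, SimpleGraph (V i))
    (R : Fin k → Fin n → Fin n → Bool) (l : ∀ i, V i → Fin n ⊕ Fin n)
    (hl : ∀ i, Labels (G i) (R i) (l i)) (h : Pk (Fin (2 * n - 1)) R (Fin k)) :
    PacksInto G (completeBipartiteGraph (Fin (2 * n - 1)) (Fin k)) := by
  obtain ⟨α, β, hα, hβ, hd⟩ := h
  let φ : ∀ i, V i → Fin (2 * n - 1) ⊕ Fin k := fun i v => Sum.map (α i) (β i) (l i v)
  have hφ : ∀ i, Injective (φ i) := fun i =>
    (Sum.map_injective.2 ⟨hα i, hβ i⟩).comp (hl i).1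
  -- the image of an edge
  have hedge : ∀ i (x : Sym2 (V i)), x ∈ (G i).edgeSet → ∃ a b, R i a b = true ∧
      Sym2.map (φ i) x = s(Sum.inl (α i a), Sum.inr (β i b)) := by
    intro i x
    refine Sym2.ind (fun u v huv => ?_) x
    rw [SimpleGraph.mem_edgeSet] at huv
    rcases (hl i).2 u v huv with ⟨a, b, h1, h2, h3⟩ | ⟨a, b, h1, h2, h3⟩
    · refine ⟨a, b, h3, ?_⟩
      rw [Sym2.map_mk]
      simp [φ, h1, h2]
    · refine ⟨a, b, h3, ?_⟩
      rw [Sym2.map_mk]
      simp [φ, h1, h2]
  refine ⟨φ, hφ, ?_, ?_⟩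
  · intro i u v huv
    rcases (hl i).2 u v huv with ⟨a, b, h1, h2, h3⟩ | ⟨a, b, h1, h2, h3⟩ <;>
      simp [φ, h1, h2]
  · intro i j hij
    rw [Set.disjoint_left]
    rintro z ⟨x, hx, rfl⟩ ⟨y, hy, hxy⟩
    obtain ⟨a, b, h1, h2⟩ := hedge i x hx
    obtain ⟨a', b', h3, h4⟩ := hedge j y hy
    rw [h2, h4] at hxy
    simp only [Sym2.eq, Sym2.rel_iff', Prod.mk.injEq, Sum.inl.injEq, Sum.inr.injEq, Prod.swap_prod_mk,
      reduceCtorEq, and_self, or_false] at hxy
    exact hd j i (Ne.symm hij) a' b' a b h3 h1 hxy.1 hxy.2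

/-- A balanced tree is labelled by a pattern; moreover the pattern has no cycle of length four. -/
lemma exists_labels {n : ℕ} (hn : 1 ≤ n) {V : Type} (G : SimpleGraph V)
    (hG : IsBalancedTree n G) : ∃ (R : Fin n → Fin n → Bool) (l : V → Fin n ⊕ Fin n),
    IsPat n R ∧ Labels G R l ∧ ∀ a a' b b', a ≠ a' → b ≠ b' →
      ¬ (R a b = true ∧ R a b' = true ∧ R a' b = true ∧ R a' b' = true) := by
  classical
  obtain ⟨hT, A, B, hAB, hdis, hA, hB, hAA, hBB⟩ := hG
  have hmem : ∀ v, v ∈ A ∨ v ∈ B := fun v => by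
    have : v ∈ A ∪ B := by rw [hAB]; trivial
    exact this
  have hAfin : A.Finite := Set.finite_of_encard_eq_coe hA
  have hBfin : B.Finite := Set.finite_of_encard_eq_coe hB
  haveI : Fintype A := hAfin.fintype
  haveI : Fintype B := hBfin.fintype
  have hcA : Fintype.card A = Fintype.card (Fin n) := by
    have : A.encard = (Fintype.card A : ℕ∞) := by
      rw [Set.encard_eq_coe_toFinset_card, Set.toFinset_card]
    rw [this] at hA
    rw [Fintype.card_fin]
    exact_mod_cast hA
  have hcB : Fintype.card B = Fintype.card (Fin n) := by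
    have : B.encard = (Fintype.card B : ℕ∞) := by
      rw [Set.encard_eq_coe_toFinset_card, Set.toFinset_card]
    rw [this] at hB
    rw [Fintype.card_fin]
    exact_mod_cast hB
  let eA : A ≃ Fin n := Fintype.equivOfCardEq hcA
  let eB : B ≃ Fin n := Fintype.equivOfCardEq hcB
  have hnotB : ∀ v, v ∈ A → v ∉ B := fun v h1 h2 => Set.disjoint_left.1 hdis h1 h2
  let R : Fin n → Fin n → Bool := fun a b => decide (G.Adj (eA.symm a) (eB.symm b))
  let l : V → Fin n ⊕ Fin n := fun v =>
    if h : v ∈ A then Sum.inl (eA ⟨v, h⟩) else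
      Sum.inr (eB ⟨v, (hmem v).resolve_left h⟩)
  have hlA : ∀ v (h : v ∈ A), l v = Sum.inl (eA ⟨v, h⟩) := fun v h => by simp [l, h]
  have hlB : ∀ v (h : v ∈ B), l v = Sum.inr (eB ⟨v, h⟩) := fun v h => by
    have : v ∉ A := fun h' => hnotB v h' h
    simp [l, this]
  have hVfin : Finite V := by
    have : (Set.univ : Set V).Finite := by rw [← hAB]; exact hAfin.union hBfin
    exact Set.finite_univ_iff.1 this
  haveI : Fintype V := Fintype.ofFinite V
  have hVcard : Fintype.card V = 2 * n := by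
    have h1 : (Set.univ : Set V).encard = n + n := by
      rw [← hAB, Set.encard_union_eq hdis, hA, hB]
    rw [Set.encard_univ, ENat.card_eq_coe_fintype_card] at h1
    have h2 : Fintype.card V = n + n := by exact_mod_cast h1
    omega
  haveI : Nontrivial V := by
    rw [← Fintype.one_lt_card_iff_nontrivial, hVcard]
    omega
  have hopp : ∀ u v, G.Adj u v → (u ∈ A ∧ v ∈ B) ∨ (u ∈ B ∧ v ∈ A) := by
    intro u v huv
    rcases hmem u with hu | hu
    · rcases hmem v with hv | hv
      · exact absurd huv (hAA u hu v hv)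
      · exact Or.inl ⟨hu, hv⟩
    · rcases hmem v with hv | hv
      · exact Or.inr ⟨hu, hv⟩
      · exact absurd huv (hBB u hu v hv)
  have hneA : ∀ (x : A) (y : B), (x : V) ≠ (y : V) := fun x y h =>
    hnotB x x.2 (h ▸ y.2)
  refine ⟨R, l, ⟨?_, ?_, ?_⟩, ⟨?_, ?_⟩, ?_⟩
  · -- the number of edges
    have h1 : G.edgeFinset.card + 1 = Fintype.card V := hT.card_edgeFinset
    have h2 : (univ.filter fun p : Fin n × Fin n => R p.1 p.2 = true).card =
        G.edgeFinset.card := by
      refine Finset.card_bij (fun p _ => s((eA.symm p.1 : V), (eB.symm p.2 : V))) ?_ ?_ ?_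
      · intro p hp
        rw [Finset.mem_filter] at hp
        rw [SimpleGraph.mem_edgeFinset, SimpleGraph.mem_edgeSet]
        simpa [R] using hp.2
      · rintro ⟨a, b⟩ - ⟨a', b'⟩ - h
        simp only [Sym2.eq, Sym2.rel_iff', Prod.mk.injEq, Prod.swap_prod_mk] at h
        rcases h with ⟨h3, h4⟩ | ⟨h3, h4⟩
        · have h5 := eA.symm.injective (Subtype.val_injective h3)
          have h6 := eB.symm.injective (Subtype.val_injective h4)
          rw [h5, h6]
        · exact absurd h3 (hneA _ _)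
      · intro x hx
        rw [SimpleGraph.mem_edgeFinset] at hx
        revert hx
        refine Sym2.ind (fun u v huv => ?_) x
        rw [SimpleGraph.mem_edgeSet] at huv
        rcases hopp u v huv with ⟨hu, hv⟩ | ⟨hu, hv⟩
        · refine ⟨(eA ⟨u, hu⟩, eB ⟨v, hv⟩), ?_, ?_⟩
          · simp [R, huv]
          · simp
        · refine ⟨(eA ⟨v, hv⟩, eB ⟨u, hu⟩), ?_, ?_⟩
          · simp [R, huv.symm]
          · simp
    rw [h2]
    omega
  · intro a
    obtain ⟨w, hw⟩ := hT.connected.preconnected.exists_adj_of_nontrivial (eA.symm a : V)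
    rcases hopp _ _ hw with ⟨-, hv⟩ | ⟨hu, -⟩
    · exact ⟨eB ⟨w, hv⟩, by simpa [R] using hw⟩
    · exact absurd hu (hnotB _ (eA.symm a).2)
  · intro b
    obtain ⟨w, hw⟩ := hT.connected.preconnected.exists_adj_of_nontrivial (eB.symm b : V)
    rcases hopp _ _ hw with ⟨hu, -⟩ | ⟨-, hv⟩
    · exact absurd (eB.symm b).2 (hnotB _ hu)
    · exact ⟨eA ⟨w, hv⟩, by simpa [R] using hw.symm⟩
  · intro u v huv
    rcases hmem u with hu | hu
    · rcases hmem v with hv | hv
      · rw [hlA u hu, hlA v hv] at huv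
        have := eA.injective (Sum.inl_injective huv)
        exact congrArg Subtype.val this
      · rw [hlA u hu, hlB v hv] at huv
        exact absurd huv (by simp)
    · rcases hmem v with hv | hv
      · rw [hlB u hu, hlA v hv] at huv
        exact absurd huv (by simp)
      · rw [hlB u hu, hlB v hv] at huv
        have := eB.injective (Sum.inr_injective huv)
        exact congrArg Subtype.val this
  · intro u v huv
    rcases hopp u v huv with ⟨hu, hv⟩ | ⟨hu, hv⟩
    · left
      exact ⟨_, _, hlA u hu, hlB v hv, by simpa [R] using huv⟩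
    · right
      exact ⟨_, _, hlB u hu, hlA v hv, by simpa [R] using huv.symm⟩
  · rintro a a' b b' ha hb ⟨h1, h2, h3, h4⟩
    simp only [R, decide_eq_true_eq] at h1 h2 h3 h4
    -- two different paths from `a` to `a'`
    have hu := hT.existsUnique_path (eA.symm a : V) (eA.symm a' : V)
    have hne : (eA.symm a : V) ≠ (eA.symm a' : V) := fun h =>
      ha (eA.symm.injective (Subtype.val_injective h))
    have hp : ∀ c, G.Adj (eA.symm a : V) (eB.symm c : V) → G.Adj (eA.symm a' : V) (eB.symm c : V) →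
        ∃ p : G.Walk (eA.symm a : V) (eA.symm a' : V), p.IsPath ∧
          p.support = [(eA.symm a : V), (eB.symm c : V), (eA.symm a' : V)] := by
      intro c h5 h6
      refine ⟨SimpleGraph.Walk.cons h5 (SimpleGraph.Walk.cons h6.symm SimpleGraph.Walk.nil), ?_, ?_⟩
      · rw [SimpleGraph.Walk.isPath_def]
        simp [hneA, hne, (hneA _ _).symm]
      · simp
    obtain ⟨p, hp1, hp2⟩ := hp b h1 h3
    obtain ⟨q, hq1, hq2⟩ := hp b' h2 h4
    have hpq : p = q := hu.unique hp1 hq1
    rw [hpq, hq2] at hp2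
    simp only [List.cons.injEq, true_and, and_true] at hp2
    exact hb (eB.symm.injective (Subtype.val_injective hp2)).symm

theorem finite {n : ℕ} (hn : 1 ≤ n) : ∃ k₀ : ℕ, 1 ≤ k₀ ∧ ∀ k ≥ k₀, P n k := by
  obtain ⟨k₀, hk₀⟩ := exists_bound hn
  refine ⟨k₀ + 1, by omega, fun k hk V G hG => ?_⟩
  choose R l h1 h2 _ using fun i => exists_labels hn (G i) (hG i)
  exact packs_of_Pk G R l h2 (hk₀ k (by omega) (fun i => ⟨R i, h1 i⟩))

end Pool.Agent.Y425.Pack
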