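import Pool.Agent.Y425.Pack.Core

/-!
The lattice argument: the differences of the star vectors of the embeddings of a pattern and the
differences of the rows of the symmetric packing generate enough.
-/

namespace Pool.Agent.Y425.Pack

set_option linter.unusedSectionVars false

open Finset Function

variable {n : ℕ} {X : Type} [Fintype X] [DecidableEq X] {T : Fin n → Fin n → Bool}

/-- The neighbours of `b`. -/
def nb (T : Fin n → Fin n → Bool) (b : Fin n) : Finset (Fin n) := univ.filter fun a => T a b = true

lemma mem_nb {a b : Fin n} : a ∈ nb T b ↔ T a b = true := by simp [nb]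

lemma sum_nb (hT : IsPat n T) : ∑ b, (nb T b).card = 2 * n - 1 := by
  rw [← hT.card, Finset.card_filter, Fintype.sum_prod_type_right]
  refine Finset.sum_congr rfl fun b _ => ?_
  rw [nb, Finset.card_filter]

lemma nb_pos (hT : IsPat n T) (b : Fin n) : 1 ≤ (nb T b).card := by
  obtain ⟨a, ha⟩ := hT.right b
  exact Finset.card_pos.2 ⟨a, mem_nb.2 ha⟩

/-- The basis vector of a subset of `X`. -/
def e (S : Finset X) : Finset X → ℤ := Pi.single S 1

/-- The parts of the standard row. -/
def dd (D : Data X T) (b : Fin n) : Finset X := (nb T b).image fun a => D.ε a b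

lemma card_dd (D : Data X T) (b : Fin n) : (dd D b).card = (nb T b).card := by
  apply Finset.card_image_of_injOn
  intro a ha a' ha' h
  exact (D.εinj a b a' b (mem_nb.1 (Finset.mem_coe.1 ha)) (mem_nb.1 (Finset.mem_coe.1 ha')) h).1

lemma dd_disj (D : Data X T) {b b' : Fin n} (h : b ≠ b') : Disjoint (dd D b) (dd D b') := by
  rw [Finset.disjoint_left]
  intro x hx hx'
  simp only [dd, Finset.mem_image] at hx hx'
  obtain ⟨a, ha, rfl⟩ := hx
  obtain ⟨a', ha', h'⟩ := hx'
  exact h (D.εinj a b a' b' (mem_nb.1 ha) (mem_nb.1 ha') h'.symm).2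

/-- The vector of the row `h`. -/
def W (D : Data X T) (h : Equiv.Perm X) : Finset X → ℤ := ∑ b, e ((dd D b).image h)

/-- The vector of the stars of the copy `g`. -/
def V (D : Data X T) (g : Equiv.Perm X) : Finset X → ℤ :=
  ∑ b, e ((nb T b).image fun a => g (D.φ a))

lemma sum_V_eq_sum_W (D : Data X T) : ∑ g, V D g = ∑ h, W D h := by
  unfold V W
  rw [Finset.sum_comm, Finset.sum_comm (s := (univ : Finset (Equiv.Perm X)))]
  refine Finset.sum_congr rfl fun b _ => ?_
  rw [← Equiv.sum_comp (Equiv.mulRight (D.p b))]
  refine Finset.sum_congr rfl fun h _ => ?_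
  congr 1
  simp only [dd, Finset.image_image]
  refine Finset.image_congr fun a ha => ?_
  simp only [Equiv.coe_mulRight, Equiv.Perm.mul_apply, comp_apply]
  rw [D.hp a b (mem_nb.1 (Finset.mem_coe.1 ha))]

/-- The subgroup of the differences. -/
def HL (D : Data X T) : AddSubgroup (Finset X → ℤ) where
  carrier := {u | ∃ r a : Equiv.Perm X → ℤ, ∑ h, r h = 0 ∧ ∑ g, a g = 0 ∧
    u = ∑ h, r h • W D h - ∑ g, a g • V D g}
  zero_mem' := ⟨0, 0, by simp, by simp, by simp⟩
  add_mem' := by
    rintro u v ⟨r, a, h1, h2, rfl⟩ ⟨r', a', h1', h2', rfl⟩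
    refine ⟨r + r', a + a', ?_, ?_, ?_⟩
    · simp [Finset.sum_add_distrib, h1, h1']
    · simp [Finset.sum_add_distrib, h2, h2']
    · simp only [Pi.add_apply, add_smul, Finset.sum_add_distrib]
      abel
  neg_mem' := by
    rintro u ⟨r, a, h1, h2, rfl⟩
    refine ⟨-r, -a, ?_, ?_, ?_⟩
    · simp [h1]
    · simp [h2]
    · simp only [Pi.neg_apply, neg_smul, Finset.sum_neg_distrib]
      abel

lemma mem_HL (D : Data X T) (u : Finset X → ℤ) : u ∈ HL D ↔
    ∃ r a : Equiv.Perm X → ℤ, ∑ h, r h = 0 ∧ ∑ g, a g = 0 ∧
    u = ∑ h, r h • W D h - ∑ g, a g • V D g := Iff.rfl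

lemma W_sub_mem (D : Data X T) (h h' : Equiv.Perm X) : W D h - W D h' ∈ HL D := by
  rw [mem_HL]
  refine ⟨Pi.single h 1 - Pi.single h' 1, 0, ?_, by simp, ?_⟩
  · simp [Finset.sum_sub_distrib]
  · simp [sub_smul, Finset.sum_sub_distrib, Pi.single_apply, ite_smul]

lemma V_sub_mem (D : Data X T) (g g' : Equiv.Perm X) : V D g - V D g' ∈ HL D := by
  rw [mem_HL]
  refine ⟨0, Pi.single g' 1 - Pi.single g 1, by simp, ?_, ?_⟩
  · simp [Finset.sum_sub_distrib]
  · simp [sub_smul, Finset.sum_sub_distrib, Pi.single_apply, ite_smul]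

lemma image_swap_of_notMem {S : Finset X} {x y : X} (g : Equiv.Perm X) (hx : x ∉ S.image g)
    (hy : y ∉ S.image g) : S.image (Equiv.swap x y * g) = S.image g := by
  refine Finset.image_congr fun a ha => ?_
  rw [Equiv.Perm.mul_apply]
  refine Equiv.swap_apply_of_ne_of_ne ?_ ?_
  · rintro rfl; exact hx (Finset.mem_image_of_mem _ (Finset.mem_coe.1 ha))
  · rintro rfl; exact hy (Finset.mem_image_of_mem _ (Finset.mem_coe.1 ha))

lemma image_swap_of_mem {S : Finset X} {x y : X} (hx : x ∈ S) (hy : y ∉ S) :
    S.image (Equiv.swap x y) = insert y (S.erase x) := by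
  ext z
  simp only [Finset.mem_image, Finset.mem_insert, Finset.mem_erase]
  constructor
  · rintro ⟨w, hw, rfl⟩
    by_cases h : w = x
    · left; rw [h, Equiv.swap_apply_left]
    · right
      rw [Equiv.swap_apply_of_ne_of_ne h (by rintro rfl; exact hy hw)]
      exact ⟨h, hw⟩
  · rintro (rfl | ⟨h1, h2⟩)
    · exact ⟨x, hx, Equiv.swap_apply_left _ _⟩
    · exact ⟨z, h2, Equiv.swap_apply_of_ne_of_ne h1 (by rintro rfl; exact hy h2)⟩

/-- There is a part of size one. -/
lemma exists_leaf (hT : IsPat n T) (hn : 1 ≤ n) : ∃ b, (nb T b).card = 1 := by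
  by_contra hcon
  push Not at hcon
  have h1 : ∀ b, 2 ≤ (nb T b).card := fun b => by
    have := nb_pos hT b
    have := hcon b
    omega
  have h2 : ∑ b : Fin n, 2 ≤ ∑ b, (nb T b).card := Finset.sum_le_sum fun b _ => h1 b
  rw [sum_nb hT] at h2
  simp at h2
  omega

/-- The exchange lemma. -/
lemma exchange (hT : IsPat n T) (hn : 1 ≤ n) (D : Data X T) (b : Fin n) (S : Finset X)
    (hS : S.card = (nb T b).card) (x y : X) (hx : x ∈ S) (hy : y ∉ S) :
    e S - e (insert y (S.erase x)) - (e {x} - e {y}) ∈ HL D := by
  by_cases hb : (nb T b).card = 1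
  · rw [hb, Finset.card_eq_one] at hS
    obtain ⟨z, rfl⟩ := hS
    rw [Finset.mem_singleton] at hx
    subst hx
    have : insert y (({x} : Finset X).erase x) = {y} := by ext w; simp
    rw [this, sub_self]
    exact (HL D).zero_mem
  obtain ⟨b0, hb0⟩ := exists_leaf hT hn
  have hne : b ≠ b0 := fun h => hb (h ▸ hb0)
  have hc0 : (dd D b0).card = 1 := by rw [card_dd, hb0]
  obtain ⟨y0, hy0⟩ := Finset.card_eq_one.1 hc0
  -- a permutation mapping the part `b` to `S` and `y0` to `y`
  obtain ⟨h, hh1, hh2⟩ : ∃ h : Equiv.Perm X, (dd D b).image h = S ∧ h y0 = y := by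
    have hy0b : y0 ∉ dd D b := by
      intro hm
      have := dd_disj D hne
      rw [hy0, Finset.disjoint_singleton_right] at this
      exact this hm
    let q : dd D b ≃ S := Finset.equivOfCardEq (by rw [card_dd, hS])
    obtain ⟨π, hπ⟩ := exists_perm
      (fun o : Option (dd D b) => o.elim y0 (fun z => (z : X)))
      (fun o : Option (dd D b) => o.elim y (fun z => ((q z : S) : X)))
      (by
        rintro (_ | z) (_ | w) hzw
        · rfl
        · simp only [Option.elim] at hzw
          exact absurd (hzw ▸ w.2) hy0b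
        · simp only [Option.elim] at hzw
          exact absurd (hzw ▸ z.2) hy0b
        · simp only [Option.elim] at hzw
          rw [Subtype.val_injective hzw])
      (by
        rintro (_ | z) (_ | w) hzw
        · rfl
        · simp only [Option.elim] at hzw
          exact absurd (hzw ▸ (q w).2) hy
        · simp only [Option.elim] at hzw
          exact absurd (hzw ▸ (q z).2) hy
        · simp only [Option.elim] at hzw
          rw [q.injective (Subtype.val_injective hzw)])
    refine ⟨π, ?_, hπ none⟩
    ext z
    simp only [Finset.mem_image]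
    constructor
    · rintro ⟨w, hw, rfl⟩
      have := hπ (some ⟨w, hw⟩)
      simp only [Option.elim] at this
      rw [this]
      exact (q ⟨w, hw⟩).2
    · intro hz
      refine ⟨(q.symm ⟨z, hz⟩ : dd D b), (q.symm ⟨z, hz⟩).2, ?_⟩
      have := hπ (some (q.symm ⟨z, hz⟩))
      simpa using this
  have key := W_sub_mem D h (Equiv.swap x y * h)
  have hW : W D h - W D (Equiv.swap x y * h) =
      (e S - e (insert y (S.erase x))) + (e {y} - e {x}) := by
    unfold W
    rw [← Finset.sum_sub_distrib, Fintype.sum_eq_add b b0 hne]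
    · congr 1
      · have : (dd D b).image (Equiv.swap x y * h) = insert y (S.erase x) := by
          rw [← image_swap_of_mem hx hy, ← hh1, Finset.image_image]
          rfl
        rw [hh1, this]
      · have h1 : (dd D b0).image h = {y} := by rw [hy0, Finset.image_singleton, hh2]
        have h2 : (dd D b0).image (Equiv.swap x y * h) = {x} := by
          rw [hy0, Finset.image_singleton, Equiv.Perm.mul_apply, hh2, Equiv.swap_apply_right]
        rw [h1, h2]
    · rintro c ⟨hc1, hc2⟩
      rw [image_swap_of_notMem, sub_self]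
      · rw [← hh1] at hx
        intro hx'
        have hd := dd_disj D hc1
        simp only [Finset.mem_image] at hx hx'
        obtain ⟨u, hu, hu'⟩ := hx
        obtain ⟨v, hv, hv'⟩ := hx'
        rw [← hv'] at hu'
        have := h.injective hu'
        exact Finset.disjoint_left.1 hd hv (this ▸ hu)
      · intro hy'
        have hd := dd_disj D hc2
        simp only [Finset.mem_image] at hy'
        obtain ⟨v, hv, hv'⟩ := hy'
        rw [← hh2] at hv'
        have := h.injective hv'
        rw [hy0, Finset.disjoint_singleton_right] at hd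
        exact hd (this ▸ hv)
  rw [hW] at key
  have e1 : e S - e (insert y (S.erase x)) - (e {x} - e {y}) =
      e S - e (insert y (S.erase x)) + (e {y} - e {x}) := by abel
  rw [e1]
  exact key

/-- The correction of a basis vector by its points. -/
def chi (S : Finset X) : Finset X → ℤ := e S - ∑ x ∈ S, e {x}

lemma chi_sub_mem (hT : IsPat n T) (hn : 1 ≤ n) (D : Data X T) (b : Fin n) :
    ∀ (k : ℕ) (S S' : Finset X), S.card = (nb T b).card → S'.card = (nb T b).card →
      (S \ S').card = k → chi S - chi S' ∈ HL D := by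
  intro k
  induction k with
  | zero =>
    intro S S' h1 h2 h3
    have h4 : S ⊆ S' := by
      rw [Finset.card_eq_zero, Finset.sdiff_eq_empty_iff_subset] at h3
      exact h3
    have h5 : S = S' := Finset.eq_of_subset_of_card_le h4 (by omega)
    rw [h5, sub_self]
    exact (HL D).zero_mem
  | succ k ih =>
    intro S S' h1 h2 h3
    obtain ⟨x, hx⟩ : (S \ S').Nonempty := Finset.card_pos.1 (by omega)
    have h4 : (S' \ S).card = (S \ S').card := by
      have e1 := Finset.card_sdiff_add_card_inter S S'
      have e2 := Finset.card_sdiff_add_card_inter S' S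
      rw [Finset.inter_comm] at e2
      omega
    obtain ⟨y, hy⟩ : (S' \ S).Nonempty := Finset.card_pos.1 (by omega)
    rw [Finset.mem_sdiff] at hx hy
    have hS1 : (insert y (S.erase x)).card = (nb T b).card := by
      rw [Finset.card_insert_of_notMem (fun h => hy.2 (Finset.mem_of_mem_erase h)),
        Finset.card_erase_of_mem hx.1, ← h1]
      have : 0 < S.card := Finset.card_pos.2 ⟨x, hx.1⟩
      omega
    have hk : (insert y (S.erase x) \ S').card = k := by
      have : insert y (S.erase x) \ S' = (S \ S').erase x := by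
        ext z
        simp only [Finset.mem_sdiff, Finset.mem_insert, Finset.mem_erase]
        constructor
        · rintro ⟨rfl | h, h'⟩
          · exact absurd hy.1 h'
          · exact ⟨h.1, h.2, h'⟩
        · rintro ⟨h, h', h''⟩
          exact ⟨Or.inr ⟨h, h'⟩, h''⟩
      rw [this, Finset.card_erase_of_mem (Finset.mem_sdiff.2 hx), h3]
      rfl
    have h5 := ih _ S' hS1 h2 hk
    have h6 := exchange hT hn D b S h1 x y hx.1 hy.2
    have h7 : chi S - chi S' = (e S - e (insert y (S.erase x)) - (e {x} - e {y})) +
        (chi (insert y (S.erase x)) - chi S') := by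
      have e3 : ∑ z ∈ insert y (S.erase x), e {z} = e {y} + ∑ z ∈ S.erase x, e {z} :=
        Finset.sum_insert (fun h => hy.2 (Finset.mem_of_mem_erase h))
      have e4 : ∑ z ∈ S, e ({z} : Finset X) = e {x} + ∑ z ∈ S.erase x, e {z} :=
        (Finset.add_sum_erase S (fun z => e ({z} : Finset X)) hx.1).symm
      simp only [chi]
      rw [e3, e4]
      abel
    rw [h7]
    exact (HL D).add_mem h6 h5

/-- A first class vertex of degree one. -/
lemma exists_leaf_left (hT : IsPat n T) (hn : 1 ≤ n) :
    ∃ a b, T a b = true ∧ ∀ b', T a b' = true → b' = b := by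
  by_contra hcon
  push Not at hcon
  have h1 : ∀ a, 2 ≤ (univ.filter fun b => T a b = true).card := fun a => by
    obtain ⟨b, hb⟩ := hT.left a
    obtain ⟨b', hb', hne⟩ := hcon a b hb
    have : ({b, b'} : Finset (Fin n)) ⊆ univ.filter fun b => T a b = true := by
      intro z hz
      simp only [Finset.mem_insert, Finset.mem_singleton] at hz
      rcases hz with rfl | rfl <;> simp [hb, hb']
    have h2 := Finset.card_le_card this
    rwa [Finset.card_pair (Ne.symm hne)] at h2
  have h2 : ∑ a : Fin n, 2 ≤ ∑ a, (univ.filter fun b => T a b = true).card :=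
    Finset.sum_le_sum fun a _ => h1 a
  have h3 : ∑ a, (univ.filter fun b => T a b = true).card = 2 * n - 1 := by
    rw [← hT.card, Finset.card_filter, Fintype.sum_prod_type]
    refine Finset.sum_congr rfl fun a _ => ?_
    rw [Finset.card_filter]
  rw [h3] at h2
  simp at h2
  omega

/-- All points are equivalent. -/
lemma point_sub_mem (hT : IsPat n T) (hn : 1 ≤ n) (hX : Fintype.card X = 2 * n - 1)
    (D : Data X T) (x y : X) : e ({x} : Finset X) - e {y} ∈ HL D := by
  by_cases hxy : x = y
  · rw [hxy, sub_self]; exact (HL D).zero_mem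
  have hn2 : 2 ≤ n := by
    by_contra h
    have : Fintype.card X ≤ 1 := by omega
    exact hxy ((Fintype.card_le_one_iff.1 this) x y)
  obtain ⟨a1, b1, hab, huniq⟩ := exists_leaf_left hT hn
  obtain ⟨z, hz⟩ : ∃ z, ∀ a, D.φ a ≠ z := by
    by_contra hcon
    push Not at hcon
    have : Fintype.card X ≤ Fintype.card (Fin n) := Fintype.card_le_of_surjective D.φ hcon
    rw [Fintype.card_fin] at this
    omega
  obtain ⟨g, hg1, hg2⟩ : ∃ g : Equiv.Perm X, g (D.φ a1) = x ∧ g z = y := by
    obtain ⟨π, hπ⟩ := exists_perm (fun t : Bool => if t then D.φ a1 else z)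
      (fun t : Bool => if t then x else y)
      (by
        rintro (_ | _) (_ | _) h
        · rfl
        · simp at h; exact absurd h.symm (hz a1)
        · simp at h; exact absurd h (hz a1)
        · rfl)
      (by
        rintro (_ | _) (_ | _) h
        · rfl
        · simp at h; exact absurd h.symm hxy
        · simp at h; exact absurd h hxy
        · rfl)
    exact ⟨π, by simpa using hπ true, by simpa using hπ false⟩
  set S : Finset X := (nb T b1).image fun a => g (D.φ a) with hS
  have hxS : x ∈ S := by
    rw [hS, Finset.mem_image]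
    exact ⟨a1, mem_nb.2 hab, hg1⟩
  have hyr : ∀ a, g (D.φ a) ≠ y := by
    intro a h
    rw [← hg2] at h
    exact hz a (g.injective h)
  have hyS : y ∉ S := by
    rw [hS, Finset.mem_image]
    rintro ⟨a, -, ha⟩
    exact hyr a ha
  have hScard : S.card = (nb T b1).card := by
    rw [hS]
    apply Finset.card_image_of_injective
    exact fun u v huv => D.φinj (g.injective huv)
  have hV : V D g - V D (Equiv.swap x y * g) = e S - e (insert y (S.erase x)) := by
    unfold V
    rw [← Finset.sum_sub_distrib, Fintype.sum_eq_single b1]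
    · congr 2
      rw [← image_swap_of_mem hxS hyS, hS, Finset.image_image]
      rfl
    · intro c hc
      have : (nb T c).image (fun a => (Equiv.swap x y * g) (D.φ a)) =
          (nb T c).image (fun a => g (D.φ a)) := by
        refine Finset.image_congr fun a ha => ?_
        simp only [Equiv.Perm.mul_apply]
        refine Equiv.swap_apply_of_ne_of_ne ?_ (hyr a)
        intro h
        rw [← hg1] at h
        have h' := D.φinj (g.injective h)
        rw [h'] at ha
        exact hc (huniq c (mem_nb.1 (Finset.mem_coe.1 ha)))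
      rw [this, sub_self]
  have h1 := V_sub_mem D g (Equiv.swap x y * g)
  rw [hV] at h1
  have h2 := exchange hT hn D b1 S hScard x y hxS hyS
  have h3 : e ({x} : Finset X) - e {y} = (e S - e (insert y (S.erase x))) -
      (e S - e (insert y (S.erase x)) - (e {x} - e {y})) := by abel
  rw [h3]
  exact (HL D).sub_mem h1 h2

end Pool.Agent.Y425.Pack
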