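import Pool.Agent.Y425.Pack.Lattice

/-!
One copy of an arbitrary pattern together with many copies of a fixed pattern packs.
-/

namespace Pool.Agent.Y425.Pack

open Finset Function

set_option linter.unusedSectionVars false

variable {n : ℕ} {X : Type} [Fintype X] [DecidableEq X] {S T : Fin n → Fin n → Bool}

/-- Subset sums of positive integers with average less than two. -/
lemma subset_sum {ι : Type} [DecidableEq ι] (d : ι → ℕ) : ∀ (k : ℕ) (s : Finset ι), s.card = k →
    (∀ b ∈ s, 1 ≤ d b) → (s = ∅ ∨ ∑ b ∈ s, d b < 2 * s.card) → ∀ t ≤ ∑ b ∈ s, d b,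
    ∃ E ⊆ s, ∑ b ∈ E, d b = t := by
  intro k
  induction k with
  | zero =>
    intro s hs h1 h2 t ht
    rw [Finset.card_eq_zero] at hs
    subst hs
    exact ⟨∅, by simp, by simp at ht; simp [ht]⟩
  | succ k ih =>
    intro s hs h1 h2 t ht
    by_cases hall : ∀ b ∈ s, d b = 1
    · have h3 : ∑ b ∈ s, d b = s.card := by
        rw [Finset.sum_congr rfl hall]; simp
      rw [h3] at ht
      obtain ⟨E, hE, hE'⟩ := Finset.exists_subset_card_eq ht
      refine ⟨E, hE, ?_⟩
      rw [Finset.sum_congr rfl fun b hb => hall b (hE hb)]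
      simpa using hE'
    · push Not at hall
      obtain ⟨b, hb, hb1⟩ := hall
      have hb2 : 2 ≤ d b := by
        have := h1 b hb
        omega
      have hcard : (s.erase b).card = k := by
        rw [Finset.card_erase_of_mem hb, hs]; rfl
      have hsum : d b + ∑ c ∈ s.erase b, d c = ∑ c ∈ s, d c := Finset.add_sum_erase s d hb
      have h4 : ∑ c ∈ s, d c < 2 * (k + 1) := by
        rcases h2 with h2 | h2
        · rw [h2] at hb; simp at hb
        · rw [hs] at h2; exact h2
      have h5 : k ≤ ∑ c ∈ s.erase b, d c := by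
        calc k = ∑ c ∈ s.erase b, 1 := by simp [hcard]
          _ ≤ _ := Finset.sum_le_sum fun c hc => h1 c (Finset.mem_of_mem_erase hc)
      by_cases hle : t ≤ ∑ c ∈ s.erase b, d c
      · obtain ⟨E, hE, hE'⟩ := ih (s.erase b) hcard
          (fun c hc => h1 c (Finset.mem_of_mem_erase hc)) (Or.inr (by rw [hcard]; omega)) t hle
        exact ⟨E, hE.trans (Finset.erase_subset _ _), hE'⟩
      · obtain ⟨E, hE, hE'⟩ := ih (s.erase b) hcard
          (fun c hc => h1 c (Finset.mem_of_mem_erase hc)) (Or.inr (by rw [hcard]; omega))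
          (t - d b) (by omega)
        have hbE : b ∉ E := fun h => by
          have := hE h
          simp at this
        refine ⟨insert b E, ?_, ?_⟩
        · intro c hc
          rw [Finset.mem_insert] at hc
          rcases hc with rfl | hc
          · exact hb
          · exact Finset.mem_of_mem_erase (hE hc)
        · rw [Finset.sum_insert hbE, hE']
          omega

/-- Sets of the same admissible size are equivalent. -/
lemma e_sub_mem (hT : IsPat n T) (hn : 1 ≤ n) (hX : Fintype.card X = 2 * n - 1) (D : Data X T)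
    (b : Fin n) (A B : Finset X) (hA : A.card = (nb T b).card) (hB : B.card = (nb T b).card) :
    e A - e B ∈ HL D := by
  have h1 := chi_sub_mem hT hn D b _ A B hA hB rfl
  have hne : Nonempty X := Fintype.card_pos_iff.1 (by omega)
  let x0 : X := Classical.arbitrary X
  have h2 : ∀ C : Finset X, ∑ x ∈ C, (e ({x} : Finset X) - e {x0}) ∈ HL D := fun C =>
    (HL D).sum_mem fun x _ => point_sub_mem hT hn hX D x x0
  have h3 : e A - e B = (chi A - chi B) + (∑ x ∈ A, (e ({x} : Finset X) - e {x0})) -
      (∑ x ∈ B, (e ({x} : Finset X) - e {x0})) := by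
    simp only [chi, Finset.sum_sub_distrib, Finset.sum_const, hA, hB]
    abel
  rw [h3]
  exact (HL D).sub_mem ((HL D).add_mem h1 (h2 A)) (h2 B)

/-- Two finite families of labels with the same sum of basis vectors are matched by a bijection. -/
lemma exists_equiv_of_sum {A B C : Type} [Fintype A] [Fintype B] [DecidableEq C]
    (f : A → C) (g : B → C)
    (h : ∑ a, (Pi.single (f a) 1 : C → ℤ) = ∑ b, (Pi.single (g b) 1 : C → ℤ)) :
    ∃ t : A ≃ B, ∀ a, g (t a) = f a := by
  classical
  have hc : ∀ c, Fintype.card {a // f a = c} = Fintype.card {b // g b = c} := by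
    intro c
    have h1 := congrFun h c
    simp only [Finset.sum_apply, Pi.single_apply] at h1
    rw [Finset.sum_boole, Finset.sum_boole] at h1
    rw [Fintype.card_subtype, Fintype.card_subtype]
    have h2 : (univ.filter fun a => c = f a) = univ.filter fun a => f a = c := by
      ext a; simp [eq_comm]
    have h3 : (univ.filter fun b => c = g b) = univ.filter fun b => g b = c := by
      ext a; simp [eq_comm]
    rw [h2, h3] at h1
    exact_mod_cast h1
  let t : A ≃ B := (Equiv.sigmaFiberEquiv f).symm.trans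
    ((Equiv.sigmaCongrRight fun c => Fintype.equivOfCardEq (hc c)).trans (Equiv.sigmaFiberEquiv g))
  refine ⟨t, fun a => ?_⟩
  have : t a = ((Fintype.equivOfCardEq (hc (f a))) ⟨a, rfl⟩ : {b // g b = f a}).1 := rfl
  rw [this]
  exact ((Fintype.equivOfCardEq (hc (f a))) ⟨a, rfl⟩ : {b // g b = f a}).2

lemma mixed_aux [NeZero n] (hS : IsPat n S) (hT : IsPat n T) (hn : 1 ≤ n)
    (hX : Fintype.card X = 2 * n - 1) (D : Data X T) (ψ : Fin n → X) (hψ : Injective ψ) :
    ∃ (K : ℕ) (I Yo : Type) (_ : Fintype I) (_ : Fintype Yo),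
      Fintype.card I = n * K * Fintype.card (Equiv.Perm X) ∧
      Fintype.card Yo = n * K * Fintype.card (Equiv.Perm X) + 1 ∧
      Pk X (Sum.elim (fun _ : Unit => S)
      (fun _ : I ⊕ ((I × Fin n) × (Equiv.Perm X × Fin n)) => T))
      (Yo ⊕ ((I × Fin n) × (Equiv.Perm X × Fin n))) := by
  classical
  -- the subsets `E i`
  have hE : ∀ i : Fin n, ∃ E : Finset (Fin n), ∑ b ∈ E, (nb T b).card = (nb S i).card := by
    intro i
    have h1 : (nb S i).card ≤ ∑ b, (nb T b).card := by
      rw [sum_nb hT, ← sum_nb hS]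
      exact Finset.single_le_sum (f := fun b => (nb S b).card) (fun _ _ => Nat.zero_le _)
        (Finset.mem_univ i)
    obtain ⟨E, -, hE⟩ := subset_sum (fun b => (nb T b).card) n univ (by simp)
      (fun b _ => nb_pos hT b) (Or.inr (by rw [sum_nb hT]; simp; omega)) _ h1
    exact ⟨E, hE⟩
  choose E hE using hE
  -- the rows `h i`
  have hh : ∀ i : Fin n, ∃ h : Equiv.Perm X, ((E i).biUnion (dd D)).image h = (nb S i).image ψ := by
    intro i
    apply exists_perm_image
    rw [Finset.card_biUnion (fun b _ c _ hbc => dd_disj D hbc),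
      Finset.card_image_of_injective _ hψ, ← hE i]
    exact Finset.sum_congr rfl fun b _ => card_dd D b
  choose h hh using hh
  -- the new row
  let Q := {q : Fin n × Fin n // q.2 ∈ E q.1}
  have hQ : Fintype.card (Σ q : Q, Fin ((nb T q.1.2).card)) = Fintype.card X := by
    rw [Fintype.card_sigma, hX, ← sum_nb hS]
    simp only [Fintype.card_fin]
    have h1 : ∑ q : Q, (nb T q.1.2).card =
        ∑ q ∈ univ.filter (fun q : Fin n × Fin n => q.2 ∈ E q.1), (nb T q.2).card :=
      (Finset.sum_subtype (univ.filter fun q : Fin n × Fin n => q.2 ∈ E q.1) (by simp)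
        (fun q : Fin n × Fin n => (nb T q.2).card)).symm
    rw [h1, Finset.sum_filter, Fintype.sum_prod_type]
    refine Finset.sum_congr rfl fun i _ => ?_
    rw [← hE i, ← Finset.sum_filter]
    congr 1
    ext b; simp
  let ε : (Σ q : Q, Fin ((nb T q.1.2).card)) ≃ X := Fintype.equivOfCardEq hQ
  let F : Q → Finset X := fun q => univ.image fun j => ε ⟨q, j⟩
  have hFcard : ∀ q : Q, (F q).card = (nb T q.1.2).card := by
    intro q
    have : Injective (fun j : Fin ((nb T q.1.2).card) => ε ⟨q, j⟩) := by
      intro j j' hj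
      have := ε.injective hj
      simpa using this
    simp only [F]
    rw [Finset.card_image_of_injective _ this]
    simp
  have hFdisj : ∀ q q' : Q, q ≠ q' → Disjoint (F q) (F q') := by
    intro q q' hqq
    rw [Finset.disjoint_left]
    intro x hx hx'
    simp only [F, Finset.mem_image, Finset.mem_univ, true_and] at hx hx'
    obtain ⟨j, rfl⟩ := hx
    obtain ⟨j', hj'⟩ := hx'
    have := ε.injective hj'
    simp only [Sigma.mk.injEq] at this
    exact hqq this.1.symm
  -- the target vector
  have hmem : (∑ q : Q, (e ((dd D q.1.2).image (h q.1.1)) - e (F q))) ∈ HL D := by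
    refine (HL D).sum_mem fun q _ => ?_
    apply e_sub_mem hT hn hX D q.1.2
    · rw [Finset.card_image_of_injective _ (h q.1.1).injective, card_dd]
    · exact hFcard q
  rw [mem_HL] at hmem
  obtain ⟨r, a, hr, ha, hra⟩ := hmem
  let K0 : ℕ := ∑ g, (r g).natAbs + ∑ g, (a g).natAbs + n
  let K : ℕ := n * K0
  have hK0 : K0 ≤ K := Nat.le_mul_of_pos_left _ hn
  have hr0 : ∀ g, (r g).natAbs ≤ ∑ g, (r g).natAbs := fun g =>
    Finset.single_le_sum (f := fun g => (r g).natAbs) (fun _ _ => Nat.zero_le _) (Finset.mem_univ g)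
  have ha0 : ∀ g, (a g).natAbs ≤ ∑ g, (a g).natAbs := fun g =>
    Finset.single_le_sum (f := fun g => (a g).natAbs) (fun _ _ => Nat.zero_le _) (Finset.mem_univ g)
  let cnt : Equiv.Perm X → ℕ := fun g => (univ.filter fun i => h i = g).card
  have hcnt : ∀ g, cnt g ≤ n := fun g => by
    calc cnt g ≤ (univ : Finset (Fin n)).card := Finset.card_filter_le _ _
      _ = n := by simp
  let A : Equiv.Perm X → ℕ := fun g => (a g + K).toNat
  let Rr : Equiv.Perm X → ℕ := fun g => (r g + K - cnt g).toNat
  have hA : ∀ g, (A g : ℤ) = a g + K := by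
    intro g
    apply Int.toNat_of_nonneg
    have := ha0 g
    have h2 : (∑ g, (a g).natAbs) ≤ K := by omega
    omega
  have hRr : ∀ g, (Rr g : ℤ) = r g + K - cnt g := by
    intro g
    apply Int.toNat_of_nonneg
    have := hr0 g
    have := hcnt g
    have h2 : (∑ g, (r g).natAbs) + n ≤ K := by omega
    omega
  let I := Σ g : Equiv.Perm X, Fin (A g)
  let Yo := (Σ g : Equiv.Perm X, Fin (Rr g)) ⊕ (Fin n ⊕ Unit)
  let tset : I × Fin n → Finset X := fun t => (nb T t.2).image fun a => t.1.1 (D.φ a)
  let sset : ((Σ g : Equiv.Perm X, Fin (Rr g)) × Fin n) ⊕ (Fin n × Fin n) → Finset X := fun s =>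
    match s with
    | Sum.inl t => (dd D t.2).image t.1.1
    | Sum.inr q => if hq : q.2 ∈ E q.1 then F ⟨q, hq⟩ else (dd D q.2).image (h q.1)
  let row : ((Σ g : Equiv.Perm X, Fin (Rr g)) × Fin n) ⊕ (Fin n × Fin n) →
      (Σ g : Equiv.Perm X, Fin (Rr g)) ⊕ (Fin n ⊕ Unit) := fun s =>
    match s with
    | Sum.inl t => Sum.inl t.1
    | Sum.inr q => if q.2 ∈ E q.1 then Sum.inr (Sum.inr ()) else Sum.inr (Sum.inl q.1)
  -- the token sums
  have hsum1 : ∑ t : I × Fin n, (Pi.single (tset t) 1 : Finset X → ℤ) =
      ∑ g, a g • V D g + (K : ℤ) • ∑ g, V D g := by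
    rw [Fintype.sum_prod_type, Fintype.sum_sigma]
    have : ∀ g : Equiv.Perm X, ∑ j : Fin (A g), ∑ b : Fin n,
        (Pi.single (tset (⟨g, j⟩, b)) 1 : Finset X → ℤ) = (a g + K) • V D g := by
      intro g
      rw [← hA g]
      simp only [tset, V, e, Finset.sum_const, Finset.card_univ, Fintype.card_fin]
      rw [← natCast_zsmul]
    simp only [this, add_smul, Finset.sum_add_distrib, Finset.smul_sum]
  have hsum2 : ∑ s : ((Σ g : Equiv.Perm X, Fin (Rr g)) × Fin n) ⊕ (Fin n × Fin n),
      (Pi.single (sset s) 1 : Finset X → ℤ) =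
      ∑ g, r g • W D g + (K : ℤ) • ∑ g, W D g -
        (∑ q : Q, (e ((dd D q.1.2).image (h q.1.1)) - e (F q))) := by
    rw [Fintype.sum_sum_type, Fintype.sum_prod_type, Fintype.sum_sigma]
    have h1 : ∀ g : Equiv.Perm X, ∑ j : Fin (Rr g), ∑ b : Fin n,
        (Pi.single (sset (Sum.inl (⟨g, j⟩, b))) 1 : Finset X → ℤ) =
        (r g + K - cnt g) • W D g := by
      intro g
      rw [← hRr g]
      simp only [sset, W, e, Finset.sum_const, Finset.card_univ, Fintype.card_fin]
      rw [← natCast_zsmul]
    have h2 : ∑ q : Fin n × Fin n, (Pi.single (sset (Sum.inr q)) 1 : Finset X → ℤ) =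
        ∑ g, (cnt g : ℤ) • W D g -
        (∑ q : Q, (e ((dd D q.1.2).image (h q.1.1)) - e (F q))) := by
      have h3 : ∑ g, (cnt g : ℤ) • W D g = ∑ q : Fin n × Fin n, e ((dd D q.2).image (h q.1)) := by
        rw [Fintype.sum_prod_type]
        have h4 : ∀ g, (cnt g : ℤ) • W D g = ∑ i, if h i = g then W D g else 0 := by
          intro g
          rw [← Finset.sum_filter, Finset.sum_const, natCast_zsmul]
        simp only [h4]
        rw [Finset.sum_comm]
        refine Finset.sum_congr rfl fun i _ => ?_
        rw [Finset.sum_ite_eq]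
        simp [W]
      have h5 : ∑ q : Q, (e ((dd D q.1.2).image (h q.1.1)) - e (F q)) =
          ∑ q : Fin n × Fin n, if hq : q.2 ∈ E q.1 then
            (e ((dd D q.2).image (h q.1)) - e (F ⟨q, hq⟩)) else 0 := by
        rw [Finset.sum_dite]
        simp only [Finset.sum_const_zero, add_zero]
        exact Fintype.sum_equiv (Equiv.subtypeEquivRight (fun q => by simp)) _ _ (fun q => rfl)
      rw [h3, h5, ← Finset.sum_sub_distrib]
      refine Finset.sum_congr rfl fun q _ => ?_
      simp only [sset, e]
      split_ifs with hq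
      · abel
      · abel
    rw [h2]
    simp only [h1, add_smul, sub_smul, Finset.sum_add_distrib, Finset.sum_sub_distrib,
      Finset.smul_sum]
    abel
  have hsum : ∑ t : I × Fin n, (Pi.single (tset t) 1 : Finset X → ℤ) =
      ∑ s : ((Σ g : Equiv.Perm X, Fin (Rr g)) × Fin n) ⊕ (Fin n × Fin n),
      (Pi.single (sset s) 1 : Finset X → ℤ) := by
    rw [hsum1, hsum2, hra, sum_V_eq_sum_W D]
    abel
  obtain ⟨t, ht⟩ := exists_equiv_of_sum tset sset hsum
  -- distinct slots of one row carry disjoint sets
  have hdisj : ∀ s s', s ≠ s' → row s = row s' → Disjoint (sset s) (sset s') := by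
    rintro (⟨y, b⟩ | ⟨i, b⟩) (⟨y', b'⟩ | ⟨i', b'⟩) hne hrow
    · simp only [row, Sum.inl.injEq] at hrow
      subst hrow
      have hb : b ≠ b' := fun h => hne (by rw [h])
      simp only [sset]
      exact (Finset.disjoint_image y.1.injective).2 (dd_disj D hb)
    · simp only [row] at hrow
      split_ifs at hrow
    · simp only [row] at hrow
      split_ifs at hrow
    · simp only [row] at hrow
      simp only [sset]
      by_cases c1 : b ∈ E i
      · by_cases c2 : b' ∈ E i'
        · rw [dif_pos c1, dif_pos c2]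
          apply hFdisj
          intro h
          apply hne
          have := congrArg Subtype.val h
          dsimp only at this
          rw [this]
        · rw [if_pos c1, if_neg c2] at hrow
          simp at hrow
      · by_cases c2 : b' ∈ E i'
        · rw [if_neg c1, if_pos c2] at hrow
          simp at hrow
        · rw [if_neg c1, if_neg c2] at hrow
          simp only [Sum.inr.injEq, Sum.inl.injEq] at hrow
          subst hrow
          rw [dif_neg c1, dif_neg c2]
          have hb : b ≠ b' := fun h => hne (by rw [h])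
          exact (Finset.disjoint_image (h i).injective).2 (dd_disj D hb)
  have hdisjS : ∀ s i, row s = Sum.inr (Sum.inl i) → Disjoint ((nb S i).image ψ) (sset s) := by
    rintro (⟨y, b⟩ | ⟨i', b⟩) i hrow
    · simp [row] at hrow
    · simp only [row] at hrow
      simp only [sset]
      by_cases c1 : b ∈ E i'
      · rw [if_pos c1] at hrow
        simp at hrow
      · rw [if_neg c1] at hrow
        simp only [Sum.inr.injEq, Sum.inl.injEq] at hrow
        subst hrow
        rw [dif_neg c1, ← hh i']
        refine (Finset.disjoint_image (h i').injective).2 ?_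
        rw [Finset.disjoint_biUnion_left]
        intro c hc
        exact dd_disj D (fun h => c1 (h ▸ hc))
  refine ⟨K0, I, Yo, inferInstance, inferInstance, ?_, ?_, ?_⟩
  · have h1 : (Fintype.card I : ℤ) = n * K0 * Fintype.card (Equiv.Perm X) := by
      simp only [I, Fintype.card_sigma, Fintype.card_fin, Nat.cast_sum, hA,
        Finset.sum_add_distrib, ha, Finset.sum_const, Finset.card_univ]
      simp only [K]
      push_cast
      simp only [nsmul_eq_mul]
      ring
    exact_mod_cast h1
  · have h0 : ∑ g, cnt g = n := by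
      have := Finset.card_eq_sum_card_fiberwise (f := h) (s := (univ : Finset (Fin n)))
        (t := univ) (by simp)
      rw [Finset.card_univ, Fintype.card_fin] at this
      exact this.symm
    have h1 : (Fintype.card Yo : ℤ) = n * K0 * Fintype.card (Equiv.Perm X) + 1 := by
      simp only [Yo, Fintype.card_sum, Fintype.card_sigma, Fintype.card_fin, Nat.cast_add,
        Nat.cast_sum, hRr,
        Finset.sum_add_distrib, Finset.sum_sub_distrib, hr, Finset.sum_const, Finset.card_univ,
        Fintype.card_unit]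
      have h0' : ∑ g, (cnt g : ℤ) = n := by exact_mod_cast h0
      rw [h0']
      simp only [K]
      push_cast
      simp only [nsmul_eq_mul]
      ring
    exact_mod_cast h1
  · refine resolve D ψ (fun i => (Sum.inr (Sum.inl i) : Yo)) (fun i a => i.1 (D.φ a))
      (fun i b => row (t (i, b))) hψ ?_ ?_ ?_ ?_
    · intro x y hxy
      exact Sum.inl_injective (Sum.inr_injective hxy)
    · exact fun i x y hxy => D.φinj (i.1.injective hxy)
    · intro i j b b' hne hrow a a' h1 h2 h3
      have hne' : t (i, b) ≠ t (j, b') := fun h => hne (t.injective h)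
      have hd := hdisj _ _ hne' hrow
      rw [ht, ht, Finset.disjoint_left] at hd
      refine hd (a := i.1 (D.φ a)) ?_ ?_
      · exact Finset.mem_image.2 ⟨a, mem_nb.2 h1, rfl⟩
      · rw [h3]
        exact Finset.mem_image.2 ⟨a', mem_nb.2 h2, rfl⟩
    · intro j b b' hrow a a' h1 h2 h3
      have hd := hdisjS (t (j, b')) b hrow.symm
      rw [ht, Finset.disjoint_left] at hd
      refine hd (a := ψ a) ?_ ?_
      · exact Finset.mem_image.2 ⟨a, mem_nb.2 h1, rfl⟩
      · rw [h3]
        exact Finset.mem_image.2 ⟨a', mem_nb.2 h2, rfl⟩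

/-- One copy of `S` and a multiple of `n (2n-1)!` copies of `T` pack. -/
theorem mixed [NeZero n] (hS : IsPat n S) (hT : IsPat n T) (hn : 1 ≤ n)
    (hX : Fintype.card X = 2 * n - 1) :
    ∃ M : ℕ, Pk X (Sum.elim (fun _ : Unit => S)
      (fun _ : Fin (M * Fintype.card (Equiv.Perm X × Fin n)) => T))
      (Unit ⊕ Fin (M * Fintype.card (Equiv.Perm X × Fin n))) := by
  classical
  obtain ⟨D⟩ := exists_data X T hT hX hn
  obtain ⟨D'⟩ := exists_data X S hS hX hn
  obtain ⟨K, I, Yo, _, _, hI, hY, hP⟩ := mixed_aux hS hT hn hX D D'.φ D'.φinj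
  have hN : Fintype.card (Equiv.Perm X × Fin n) = n * Fintype.card (Equiv.Perm X) := by
    rw [Fintype.card_prod, Fintype.card_fin, mul_comm]
  have hcI : Fintype.card (I ⊕ ((I × Fin n) × (Equiv.Perm X × Fin n))) =
      K * (1 + n * Fintype.card (Equiv.Perm X × Fin n)) *
        Fintype.card (Equiv.Perm X × Fin n) := by
    rw [Fintype.card_sum, Fintype.card_prod, Fintype.card_prod, hI, Fintype.card_fin, hN]
    ring
  have hcY : Fintype.card (Yo ⊕ ((I × Fin n) × (Equiv.Perm X × Fin n))) =
      1 + K * (1 + n * Fintype.card (Equiv.Perm X × Fin n)) *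
        Fintype.card (Equiv.Perm X × Fin n) := by
    rw [Fintype.card_sum, Fintype.card_prod, Fintype.card_prod, hI, hY, Fintype.card_fin, hN]
    ring
  refine ⟨K * (1 + n * Fintype.card (Equiv.Perm X × Fin n)), ?_⟩
  let e1 : Fin (K * (1 + n * Fintype.card (Equiv.Perm X × Fin n)) *
      Fintype.card (Equiv.Perm X × Fin n)) ≃ (I ⊕ ((I × Fin n) × (Equiv.Perm X × Fin n))) :=
    Fintype.equivOfCardEq (by rw [hcI, Fintype.card_fin])
  let e2 : (Yo ⊕ ((I × Fin n) × (Equiv.Perm X × Fin n))) ≃
      (Unit ⊕ Fin (K * (1 + n * Fintype.card (Equiv.Perm X × Fin n)) *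
      Fintype.card (Equiv.Perm X × Fin n))) :=
    Fintype.equivOfCardEq (by rw [hcY]; simp)
  refine hP.congr (Equiv.sumCongr (Equiv.refl Unit) e1) ?_ e2
  rintro (_ | j) <;> rfl

end Pool.Agent.Y425.Pack
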