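import Pool.Agent.Y425.Pack.Graph

/-!
Machinery for small cases: finitely many standard patterns, which may be used in both
orientations.
-/

namespace Pool.Agent.Y425.Pack

open Finset Function

set_option linter.unusedSectionVars false

variable {n L : ℕ}

/-- The pattern with the two classes interchanged. -/
def flipR (R : Fin n → Fin n → Bool) : Fin n → Fin n → Bool := fun a b => R b a

/-- The multiset of the standard patterns with multiplicities `m`, suitably oriented, packs. -/
def QM (Std : Fin L → Fin n → Fin n → Bool) (m : Fin L → ℕ) : Prop :=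
  ∃ R : (Σ c : Fin L, Fin (m c)) → (Fin n → Fin n → Bool),
    (∀ p, R p = Std p.1 ∨ R p = flipR (Std p.1)) ∧
    Pk (Fin (2 * n - 1)) R (Σ c : Fin L, Fin (m c))

lemma QM.add {Std : Fin L → Fin n → Fin n → Bool} {m m' : Fin L → ℕ} (h : QM Std m)
    (h' : QM Std m') : QM Std (m + m') := by
  obtain ⟨R, hR, hP⟩ := h
  obtain ⟨R', hR', hP'⟩ := h'
  let E : (Σ c : Fin L, Fin ((m + m') c)) ≃ (Σ c : Fin L, Fin (m c)) ⊕ (Σ c : Fin L, Fin (m' c)) :=
    (Equiv.sigmaCongrRight fun c => (finSumFinEquiv (m := m c) (n := m' c)).symm).trans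
      (Equiv.sigmaSumDistrib (fun c : Fin L => Fin (m c)) (fun c : Fin L => Fin (m' c)))
  refine ⟨fun p => Sum.elim R R' (E p), ?_, (hP.sum hP').congr E (fun _ => rfl) E.symm⟩
  rintro ⟨c, j⟩
  have hE : E ⟨c, j⟩ = (Equiv.sigmaSumDistrib (fun c : Fin L => Fin (m c))
      (fun c : Fin L => Fin (m' c))) ⟨c, finSumFinEquiv.symm j⟩ := rfl
  dsimp only
  rw [hE]
  rcases finSumFinEquiv.symm j with j | j
  · exact hR ⟨c, j⟩
  · exact hR' ⟨c, j⟩

/-- A certificate gives a packing. -/
lemma QM_of_cert {Std : Fin L → Fin n → Fin n → Bool} {k : ℕ} (t : Fin k → Fin L)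
    (R : Fin k → Fin n → Fin n → Bool) (hR : ∀ i, R i = Std (t i) ∨ R i = flipR (Std (t i)))
    (h : Pk (Fin (2 * n - 1)) R (Fin k)) (m : Fin L → ℕ)
    (hm : ∀ c, (univ.filter fun i => t i = c).card = m c) : QM Std m := by
  classical
  have hc : ∀ c, Fintype.card {i // t i = c} = m c := fun c => by
    rw [Fintype.card_subtype]; exact hm c
  let E : (Σ c : Fin L, Fin (m c)) ≃ Fin k :=
    (Equiv.sigmaCongrRight fun c => (Fintype.equivOfCardEq (by rw [hc c, Fintype.card_fin]) :
      Fin (m c) ≃ {i // t i = c})).trans (Equiv.sigmaFiberEquiv t)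
  have hE : ∀ p, t (E p) = p.1 := by
    rintro ⟨c, j⟩
    exact ((Fintype.equivOfCardEq (by rw [hc c, Fintype.card_fin]) :
      Fin (m c) ≃ {i // t i = c}) j).2
  refine ⟨fun p => R (E p), fun p => ?_, h.congr E (fun _ => rfl) E.symm⟩
  have := hR (E p)
  rw [hE] at this
  exact this

lemma Labels.flip {V : Type} {G : SimpleGraph V} {R : Fin n → Fin n → Bool}
    {l : V → Fin n ⊕ Fin n} (h : Labels G R l) : Labels G (flipR R) (Sum.swap ∘ l) := by
  refine ⟨(Sum.swap_leftInverse.injective).comp h.1, fun u v huv => ?_⟩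
  rcases h.2 u v huv with ⟨a, b, h1, h2, h3⟩ | ⟨a, b, h1, h2, h3⟩
  · right
    exact ⟨b, a, by simp [h1], by simp [h2], h3⟩
  · left
    exact ⟨b, a, by simp [h1], by simp [h2], h3⟩

lemma Labels.map {V : Type} {G : SimpleGraph V} {R R' : Fin n → Fin n → Bool}
    {l : V → Fin n ⊕ Fin n} (h : Labels G R l) (π ρ : Fin n → Fin n) (hπ : Injective π)
    (hρ : Injective ρ) (hR : ∀ a b, R a b = true → R' (π a) (ρ b) = true) :
    Labels G R' (Sum.map π ρ ∘ l) := by
  refine ⟨(Sum.map_injective.2 ⟨hπ, hρ⟩).comp h.1, fun u v huv => ?_⟩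
  rcases h.2 u v huv with ⟨a, b, h1, h2, h3⟩ | ⟨a, b, h1, h2, h3⟩
  · left
    exact ⟨π a, ρ b, by simp [h1], by simp [h2], hR a b h3⟩
  · right
    exact ⟨π a, ρ b, by simp [h1], by simp [h2], hR a b h3⟩

/-- If every tree is labelled by a standard pattern and all multisets of the standard patterns of
size `k` pack, then `P n k` holds. -/
lemma P_of_QM (Std : Fin L → Fin n → Fin n → Bool) (k : ℕ)
    (hstd : ∀ (V : Type) (G : SimpleGraph V), IsBalancedTree n G →
      ∃ c l, Labels G (Std c) l)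
    (h : ∀ m : Fin L → ℕ, ∑ c, m c = k → QM Std m) : P n k := by
  classical
  intro V G hG
  choose c l hl using fun i => hstd (V i) (G i) (hG i)
  have hsum : ∑ d, Fintype.card {i // c i = d} = k := by
    rw [← Fintype.card_sigma, Fintype.card_congr (Equiv.sigmaFiberEquiv c), Fintype.card_fin]
  obtain ⟨R, hR, hP⟩ := h (fun d => Fintype.card {i // c i = d}) hsum
  let E : (Σ d : Fin L, Fin (Fintype.card {i // c i = d})) ≃ Fin k :=
    (Equiv.sigmaCongrRight fun d => (Fintype.equivFin {i // c i = d}).symm).trans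
      (Equiv.sigmaFiberEquiv c)
  have hE : ∀ p, c (E p) = p.1 := by
    rintro ⟨d, j⟩
    exact ((Fintype.equivFin {i // c i = d}).symm j).2
  have hP' : Pk (Fin (2 * n - 1)) (fun i => R (E.symm i)) (Fin k) :=
    hP.congr E.symm (fun _ => rfl) E
  have hlab : ∀ i, ∃ l' : V i → Fin n ⊕ Fin n, Labels (G i) (R (E.symm i)) l' := by
    intro i
    have h1 := hE (E.symm i)
    rw [Equiv.apply_symm_apply] at h1
    rcases hR (E.symm i) with h2 | h2
    · rw [h2, ← h1]
      exact ⟨l i, hl i⟩
    · rw [h2, ← h1]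
      exact ⟨_, (hl i).flip⟩
  choose l' hl' using hlab
  exact packs_of_Pk G _ l' hl' hP'

/-! ### Trees with one edge -/

lemma P_one (k : ℕ) : P 1 k := by
  intro V G hG
  choose R l h1 h2 _ using fun i => exists_labels (le_refl 1) (G i) (hG i)
  refine packs_of_Pk G R l h2 ⟨fun _ _ => ⟨0, by norm_num⟩, fun i _ => i, ?_, ?_, ?_⟩
  · exact fun i a b _ => Subsingleton.elim a b
  · exact fun i a b _ => Subsingleton.elim a b
  · intro i j hij a b a' b' _ _ _
    exact hij

/-! ### Trees with three edges -/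

/-- The path with four vertices. -/
def Std2 : Fin 1 → Fin 2 → Fin 2 → Bool := fun _ a b => !(decide (a = 1) && decide (b = 1))

/-- `R` is contained in `S` after relabelling the classes by `π` and `ρ`. -/
def fit {n : ℕ} (R S : Fin n → Fin n → Bool) (π ρ : Fin n → Fin n) : Bool :=
  (List.finRange n).all fun a => (List.finRange n).all fun b => !(R a b) || S (π a) (ρ b)

lemma fit_spec {n : ℕ} {R S : Fin n → Fin n → Bool} {π ρ : Fin n → Fin n}
    (h : fit R S π ρ = true) (a b : Fin n) (hab : R a b = true) : S (π a) (ρ b) = true := by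
  simp only [fit, List.all_eq_true, List.mem_finRange, forall_const, Bool.or_eq_true,
    Bool.not_eq_true'] at h
  rcases h a b with h | h
  · rw [hab] at h; exact absurd h (by simp)
  · exact h

/-- The two permutations of `Fin 2`. -/
def perms2 : List (Fin 2 → Fin 2) := [![0, 1], ![1, 0]]

lemma perms2_inj : ∀ π ∈ perms2, Injective π := by decide

/-- There are three edges. -/
def good2 (R : Fin 2 → Fin 2 → Bool) : Bool :=
  (R 0 0).toNat + (R 0 1).toNat + (R 1 0).toNat + (R 1 1).toNat == 3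

lemma class2 : ∀ r00 r01 r10 r11 : Bool, good2 ![![r00, r01], ![r10, r11]] = true →
    ∃ π ∈ perms2, ∃ ρ ∈ perms2, fit ![![r00, r01], ![r10, r11]] (Std2 0) π ρ = true := by
  decide

lemma eta2 (R : Fin 2 → Fin 2 → Bool) : R = ![![R 0 0, R 0 1], ![R 1 0, R 1 1]] := by
  funext a b
  fin_cases a <;> fin_cases b <;> rfl

lemma exists_std2 (V : Type) (G : SimpleGraph V) (hG : IsBalancedTree 2 G) :
    ∃ c l, Labels G (Std2 c) l := by
  obtain ⟨R, l, hR, hl, -⟩ := exists_labels (by norm_num : 1 ≤ 2) G hG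
  have hgood : good2 R = true := by
    have h1 := hR.card
    rw [Finset.card_filter, Fintype.sum_prod_type] at h1
    simp only [Fin.sum_univ_two] at h1
    simp only [good2, beq_iff_eq]
    rcases h00 : R 0 0 <;> rcases h01 : R 0 1 <;> rcases h10 : R 1 0 <;> rcases h11 : R 1 1 <;>
      simp_all
  rw [eta2 R] at hgood
  obtain ⟨π, hπ, ρ, hρ, h⟩ := class2 _ _ _ _ hgood
  rw [← eta2 R] at h
  exact ⟨0, _, hl.map π ρ (perms2_inj π hπ) (perms2_inj ρ hρ) (fit_spec h)⟩

end Pool.Agent.Y425.Pack
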